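import Pool.Agent.P.MP_4722b0_al.X.Rel

/-! Leonard triples with `A + B + C = 0`: the eigenvalues have constant second differences. -/

namespace Pool.Agent.P.MP_4722b0_al.X

open Module Matrix

variable {K V : Type} [Field K] [AddCommGroup V] [Module K V] {n : ℕ}
variable {A B C X : End K V} {a b c : Basis (Fin n) K V} {θ φ η : Fin n → K}

lemma LT.affine (h : LT A B C a b c θ φ η) (x : K) {y : K} (hy : y ≠ 0) :
    LT (x • 1 + y • A) B C a b c (fun i => x + y * θ i) φ η :=
  ⟨h.ab.affine x hy, h.bc, (h.ca.symm.affine x hy).symm⟩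

/-- A dependent triple is an affine image of a triple with sum zero. -/
lemma LT.norm (h : LT A B C a b c θ φ η) (hn : 3 ≤ n) (hi : ¬ Ind A B C) :
    ∃ (A B C : End K V) (θ φ η : Fin n → K), LT A B C a b c θ φ η ∧ A + B + C = 0 := by
  simp only [Ind, not_forall] at hi
  obtain ⟨x0, x1, x2, x3, e, hi⟩ := hi
  have h3 : x3 ≠ 0 := fun z => by
    obtain ⟨e0, e1, e2, -⟩ := h.ab.ind5 hn (x0 := x0) (x1 := x1) (x2 := x2) (r := 0) (s := 0)
      (by rw [z] at e; linear_combination (norm := module) e)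
    exact hi ⟨e0, e1, e2, z⟩
  have h1 : x1 ≠ 0 := fun z => by
    obtain ⟨e0, e1, e2, -⟩ := h.bc.ind5 hn (x0 := x0) (x1 := x2) (x2 := x3) (r := 0) (s := 0)
      (by rw [z] at e; linear_combination (norm := module) e)
    exact h3 e2
  have h2 : x2 ≠ 0 := fun z => by
    obtain ⟨e0, e1, e2, -⟩ := h.ca.ind5 hn (x0 := x0) (x1 := x3) (x2 := x1) (r := 0) (s := 0)
      (by rw [z] at e; linear_combination (norm := module) e)
    exact h3 e1
  exact ⟨_, _, _, _, _, _, (((h.affine x0 h1).rot.affine 0 h2).rot.affine 0 h3).rot,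
    by linear_combination (norm := module) e⟩

lemma Band.far {M N : Matrix (Fin n) (Fin n) K} {k l : ℕ} (h : Band k M) (h' : Band l N)
    {i t j : Fin n} (e : (i : ℕ) + k = t) (e' : (t : ℕ) + l = j) : (M * N) i j = M i t * N t j := by
  rw [mul_apply]
  refine Finset.sum_eq_single t (fun s _ u => ?_) (by simp)
  have := Fin.val_ne_of_ne u
  by_cases c : (i : ℕ) + k < s
  · rw [h i s (.inl c), zero_mul]
  · rw [h' s j (by omega), mul_zero]

/-- A three term recurrence. -/
def Rec (β γ : K) (θ : Fin n → K) : Prop :=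
  ∀ i j k : Fin n, (i : ℕ) + 1 = j → (j : ℕ) + 1 = k → θ i - β * θ j + θ k = γ

/-- An Askey-Wilson type relation. -/
def AW (A B : End K V) (β γ ϱ f0 f1 f2 f3 : K) : Prop :=
  A * A * B - β • (A * B * A) + B * A * A - γ • (A * B + B * A) - ϱ • B =
    f0 • 1 + f1 • A + f2 • (A * A) + f3 • (A * A * A)

lemma LP.aw_use (h : LP A B a b θ φ) (hn : 4 ≤ n) {β γ ϱ f0 f1 f2 f3 : K}
    (e : AW A B β γ ϱ f0 f1 f2 f3) : f3 = 0 ∧ Rec β γ θ ∧ Rec β f2 φ := by
  have ea := congrArg (mt a) e
  have eb := congrArg (mt b) e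
  simp only [map_add, map_sub, map_smul, map_mul, map_one, h.dA, h.dB] at ea eb
  have t := h.tA
  generalize mt b A = M at eb t
  have d := band_diagonal φ
  have m := t.band
  have f30 : f3 = 0 := by
    have := congrFun (congrFun eb ⟨0, by omega⟩) ⟨3, by omega⟩
    simp only [Matrix.sub_apply, Matrix.add_apply, Matrix.smul_apply, smul_eq_mul] at this
    rw [(m.mul m).mul d _ _ (by simp), (m.mul d).mul m _ _ (by simp), (d.mul m).mul m _ _ (by simp),
      m.mul d _ _ (by simp), d.mul m _ _ (by simp), d _ _ (by simp), band_one _ _ (by simp),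
      m _ _ (by simp), m.mul m _ _ (by simp), (m.mul m).far m (t := ⟨2, by omega⟩) rfl rfl,
      m.far m (t := ⟨1, by omega⟩) rfl rfl] at this
    exact (mul_eq_zero.1 (by linear_combination -this)).resolve_right (mul_ne_zero (mul_ne_zero
      (t.adj (adj01 (by omega))) (t.adj (adj12 (by omega)))) (t.adj (adj23 hn)))
  have k : ∀ {i j}, Adj i j →
      θ i * θ i - β * (θ i * θ j) + θ j * θ j - γ * (θ i + θ j) - ϱ = 0 := fun {i j} u => by
    have := congrFun (congrFun ea i) j
    simp only [Matrix.sub_apply, Matrix.add_apply, Matrix.smul_apply, smul_eq_mul, diagonal_mul,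
      mul_diagonal, diagonal_mul_diagonal, one_apply_ne u.ne, diagonal_apply_ne _ u.ne] at this
    exact mul_left_cancel₀ (h.tB.adj u) (by linear_combination this)
  refine ⟨f30, fun i j l u v => ?_, fun i j l u v => ?_⟩
  · exact mul_left_cancel₀ (sub_ne_zero.2 (h.inj.ne fun c : i = l => by rw [c] at u; omega))
      (by linear_combination k (.inl u) - k (.inr v : Adj l j))
  · have := congrFun (congrFun eb i) l
    simp only [Matrix.sub_apply, Matrix.add_apply, Matrix.smul_apply, smul_eq_mul, f30,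
      zero_mul] at this
    rw [mul_diagonal, (m.mul d).far m u v, (d.mul m).far m u v, m.mul d i l (by omega),
      d.mul m i l (by omega), d i l (by omega), band_one i l (by omega), m i l (by omega),
      m.far m u v, mul_diagonal, diagonal_mul] at this
    exact mul_left_cancel₀ (mul_ne_zero (t.adj (.inl u)) (t.adj (.inl v)))
      (by linear_combination this)

lemma LP.aw (h : LP A B a b θ φ) (hn : 4 ≤ n) :
    ∃ β γ ϱ f0 f1 f2 : K, AW A B β γ ϱ f0 f1 f2 0 := by
  have a0 := h.b0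
  have a1 := h.tB.band
  have b0 := h.symm.b0
  have b1 := h.tA.band
  obtain ⟨g, e, i, hi⟩ := h.dep
    ![A * A * B, A * B * A, B * A * A, A * B, B * A, B, 1, A, A * A]
    {(0, 0), (1, 0), (2, 0), (0, 1), (1, 1), (2, 1), (3, 1), (0, 2)} 2 (by decide) (fun i => by
      fin_cases i <;> simp only [Fin.reduceFinMk, cons_val, map_mul, map_one]
      exacts [(a0.mul a0).mul a1, (a0.mul a1).mul a0, (a1.mul a0).mul a0, a0.mul a1, a1.mul a0,
        a1, band_one.mono zero_le_one, a0.mono zero_le_one, (a0.mul a0).mono zero_le_one])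
    (fun i => by
      fin_cases i <;> simp only [Fin.reduceFinMk, cons_val, map_mul, map_one]
      exacts [(b1.mul b1).mul b0, (b1.mul b0).mul b1, (b0.mul b1).mul b1,
        (b1.mul b0).mono one_le_two, (b0.mul b1).mono one_le_two, b0.mono zero_le_two,
        band_one.mono zero_le_two, b1.mono one_le_two, b1.mul b1])
    fun r s e => by
      simp only [Finset.mem_insert, Finset.mem_singleton, Prod.mk.injEq]
      omega
  simp only [Fin.sum_univ_succ, Fin.sum_univ_zero, cons_val_zero, cons_val_succ,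
    Fin.succ_zero_eq_one, Fin.reduceSucc] at e
  have ea := congrArg (mt a) e
  simp only [map_add, map_smul, map_mul, map_one, map_zero, h.dA] at ea
  have k : ∀ {i j}, Adj i j → g 0 * (θ i * θ i) + g 1 * (θ i * θ j) + g 2 * (θ j * θ j) +
      g 3 * θ i + g 4 * θ j + g 5 = 0 := fun {i j} u => by
    have := congrFun (congrFun ea i) j
    simp only [Matrix.add_apply, Matrix.smul_apply, smul_eq_mul, diagonal_mul, mul_diagonal,
      diagonal_mul_diagonal, one_apply_ne u.ne, diagonal_apply_ne _ u.ne,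
      Matrix.zero_apply] at this
    exact mul_left_cancel₀ (h.tB.adj u) (by linear_combination this)
  have k1 := k (adj01 (by omega))
  have k2 := k (adj01 (by omega)).symm
  have k3 := k (adj12 (by omega))
  have k4 := k (adj12 (by omega)).symm
  have k5 := k (adj23 hn).symm
  have d : g 0 = 0 → g 1 = 0 → g 2 = 0 → g 3 = 0 → g 4 = 0 → g 5 = 0 → ∀ i,
      g 6 + g 7 * θ i + g 8 * (θ i * θ i) = 0 := fun e0 e1 e2 e3 e4 e5 i => by
    have := congrFun (congrFun ea i) i
    simpa [e0, e1, e2, e3, e4, e5, add_assoc] using this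
  have n01 := h.ne (by omega) (by omega) (by omega : 0 ≠ 1)
  have n12 := h.ne (by omega) (by omega) (by omega : 1 ≠ 2)
  have n02 := h.ne (by omega) (by omega) (by omega : 0 ≠ 2)
  have n13 := h.ne (by omega) (by omega) (by omega : 1 ≠ 3)
  have d0 := fun e0 e1 e2 e3 e4 e5 => d e0 e1 e2 e3 e4 e5 ⟨0, by omega⟩
  have d1 := fun e0 e1 e2 e3 e4 e5 => d e0 e1 e2 e3 e4 e5 ⟨1, by omega⟩
  have d2 := fun e0 e1 e2 e3 e4 e5 => d e0 e1 e2 e3 e4 e5 ⟨2, by omega⟩
  generalize θ ⟨0, _⟩ = t0, θ ⟨1, _⟩ = t1, θ ⟨2, _⟩ = t2, θ ⟨3, _⟩ = t3 at *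
  have l1 : (g 0 - g 2) * (t0 + t1) + (g 3 - g 4) = 0 :=
    mul_left_cancel₀ n01 (by linear_combination k1 - k2)
  have l2 : (g 0 - g 2) * (t1 + t2) + (g 3 - g 4) = 0 :=
    mul_left_cancel₀ n12 (by linear_combination k3 - k4)
  have g2 : g 2 = g 0 := mul_left_cancel₀ n02 (by linear_combination l2 - l1)
  have g4 : g 4 = g 3 := by linear_combination (t0 + t1) * -g2 - l1
  have g0 : g 0 ≠ 0 := fun e0 => by
    have e2 := g2.trans e0
    rw [e0, e2, g4] at k1 k3 k4 k5
    have m1 : g 1 * t1 + g 3 = 0 := mul_left_cancel₀ n02 (by linear_combination k1 - k4)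
    have m2 : g 1 * t2 + g 3 = 0 := mul_left_cancel₀ n13 (by linear_combination k3 - k5)
    have e1 : g 1 = 0 := mul_left_cancel₀ n12 (by linear_combination m1 - m2)
    have e3 : g 3 = 0 := by simpa [e1] using m1
    have e4 := g4.trans e3
    have e5 : g 5 = 0 := by simpa [e1, e3] using k1
    replace d0 := d0 e0 e1 e2 e3 e4 e5
    replace d1 := d1 e0 e1 e2 e3 e4 e5
    replace d2 := d2 e0 e1 e2 e3 e4 e5
    have m3 : g 7 + g 8 * (t0 + t1) = 0 := mul_left_cancel₀ n01 (by linear_combination d0 - d1)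
    have m4 : g 7 + g 8 * (t1 + t2) = 0 := mul_left_cancel₀ n12 (by linear_combination d1 - d2)
    have e8 : g 8 = 0 := mul_left_cancel₀ n02 (by linear_combination m3 - m4)
    have e7 : g 7 = 0 := by simpa [e8] using m3
    have e6 : g 6 = 0 := by simpa [e7, e8] using d0
    fin_cases i <;> exact hi ‹_›
  refine ⟨-g 1 / g 0, -g 3 / g 0, -g 5 / g 0, -g 6 / g 0, -g 7 / g 0, -g 8 / g 0,
    smul_right_injective _ g0 ?_⟩
  simp only [smul_add, smul_sub, smul_smul, mul_div_cancel₀ _ g0]
  rw [g2, g4] at e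
  linear_combination (norm := module) e

lemma LT.second (h : LT A B C a b c θ φ η) (hn : 4 ≤ n) (hs : A + B + C = 0) :
    ∃ γ γ' : K, Rec 2 γ θ ∧ Rec 2 γ' φ ∧ Rec 2 (2 * γ - γ') η := by
  obtain ⟨β, γ, ϱ, f0, f1, f2, e⟩ := h.ab.aw hn
  obtain ⟨-, r1, r2⟩ := h.ab.aw_use hn e
  have e' : AW A C β γ ϱ (-f0) (ϱ - f1) (2 * γ - f2) (β - 2) := by
    obtain rfl : C = -A - B := by linear_combination (norm := module) hs
    simp only [AW, mul_sub, sub_mul, mul_neg, neg_mul] at e ⊢
    linear_combination (norm := module) -e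
  obtain ⟨r0, -, r3⟩ := h.ca.symm.aw_use hn e'
  obtain rfl : β = 2 := sub_eq_zero.1 r0
  exact ⟨γ, f2, r1, r2, r3⟩

end Pool.Agent.P.MP_4722b0_al.X
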