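import Pool.Agent.P.MP_4722b0_al.X.Defs

/-! Leonard pairs: maps that are banded in both eigenbases. -/

namespace Pool.Agent.P.MP_4722b0_al.X

open Module Matrix

variable {K V : Type} [Field K] [AddCommGroup V] [Module K V] {n : ℕ}

/-- Band matrices. -/
def Band (k : ℕ) (M : Matrix (Fin n) (Fin n) K) : Prop :=
  ∀ i j : Fin n, (i : ℕ) + k < j ∨ (j : ℕ) + k < i → M i j = 0

/-- Adjacent indices. -/
def Adj (i j : Fin n) : Prop := (i : ℕ) + 1 = j ∨ (j : ℕ) + 1 = i

variable {M N : Matrix (Fin n) (Fin n) K} {k l : ℕ}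

lemma Band.mono (h : Band k M) (hk : k ≤ l) : Band l M := fun i j e => h i j (by omega)

lemma Band.mul (h : Band k M) (h' : Band l N) : Band (k + l) (M * N) := fun i j e => by
  rw [mul_apply]
  refine Finset.sum_eq_zero fun t _ => ?_
  by_cases c : (i : ℕ) + k < t ∨ (t : ℕ) + k < i
  · rw [h i t c, zero_mul]
  · rw [h' t j (by omega), mul_zero]

lemma band_diagonal (d : Fin n → K) : Band 0 (diagonal d) := fun i j e =>
  diagonal_apply_ne _ fun c => by rw [c] at e; omega

lemma band_one : Band 0 (1 : Matrix (Fin n) (Fin n) K) := band_diagonal _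

lemma IsIrredTridiagonal.band (h : IsIrredTridiagonal M) : Band 1 M := h.1

lemma IsIrredTridiagonal.adj (h : IsIrredTridiagonal M) {i j : Fin n} (e : Adj i j) : M i j ≠ 0 :=
  e.elim (fun e => (h.2 i j e).1) fun e => (h.2 j i e).2

lemma Adj.ne {i j : Fin n} (e : Adj i j) : i ≠ j := fun c => by
  rw [c, Adj] at e
  omega

lemma IsIrredTridiagonal.transpose (h : IsIrredTridiagonal M) : IsIrredTridiagonal Mᵀ :=
  ⟨fun i j e => h.1 j i e.symm, fun i j e => (h.2 i j e).symm⟩

/-- The matrix differs from an irreducible tridiagonal one by a scalar factor and a diagonal. -/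
lemma IsIrredTridiagonal.of_off (h : IsIrredTridiagonal M) {c : K} (hc : c ≠ 0)
    (e : ∀ i j, i ≠ j → N i j = c * M i j) : IsIrredTridiagonal N :=
  ⟨fun i j a => by rw [e i j (fun c => by rw [c] at a; omega), h.1 i j a, mul_zero], fun i j a =>
    have b : i ≠ j := fun c => by rw [c] at a; omega
    ⟨by rw [e i j b]; exact mul_ne_zero hc (h.2 i j a).1,
      by rw [e j i b.symm]; exact mul_ne_zero hc (h.2 i j a).2⟩⟩

lemma eig_zero (h : IsIrredTridiagonal M) {v : Fin n → K} {t : K}
    (hv : ∀ i, ∑ j, M i j * v j = t * v i) (h0 : ∀ i : Fin n, (i : ℕ) = 0 → v i = 0) : v = 0 := by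
  have key : ∀ m : ℕ, ∀ i : Fin n, (i : ℕ) ≤ m → v i = 0 := by
    intro m
    induction m with
    | zero => exact fun i hi => h0 i (by omega)
    | succ m ih =>
      intro i hi
      by_cases c : (i : ℕ) ≤ m
      · exact ih i c
      have a := hv ⟨m, by omega⟩
      rw [ih ⟨m, by omega⟩ le_rfl, mul_zero, Finset.sum_eq_single i (fun j _ e => ?_) (by simp)] at a
      · exact (mul_eq_zero.1 a).resolve_left (h.2 _ i (by simp only; omega)).1
      · by_cases c' : (j : ℕ) ≤ m
        · rw [ih j c', mul_zero]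
        · rw [h.1 _ j (.inl (by have := Fin.val_ne_of_ne e; simp only; omega)), zero_mul]
  exact funext fun i => key i i le_rfl

lemma tri_zero {Y : Matrix (Fin n) (Fin n) K} (h : Band 1 Y) {θ m s : Fin n → K}
    (hθ : Function.Injective θ) (hm : ∀ i, m i ≠ 0) (hs : ∀ i, s i ≠ 0)
    (h1 : ∀ i, ∑ j, Y i j * m j = 0) (h2 : ∀ i, ∑ j, Y i j * (θ j * m j) = 0)
    (h3 : ∀ j, ∑ i, s i * Y i j = 0) : Y = 0 := by
  have key : ∀ r : ℕ, ∀ i j : Fin n, (i : ℕ) < r ∨ (j : ℕ) < r → Y i j = 0 := by
    intro r
    induction r with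
    | zero => exact fun i j e => by omega
    | succ r ih =>
      have d : ∀ i : Fin n, (i : ℕ) = r → Y i i = 0 := fun i hi => by
        by_cases c : r + 1 < n
        · have a : ∑ j, Y i j * ((θ j - θ ⟨r + 1, c⟩) * m j) = 0 := by
            simp only [sub_mul, mul_sub, Finset.sum_sub_distrib, h2, mul_left_comm _ (θ ⟨r + 1, c⟩),
              ← Finset.mul_sum, h1, mul_zero, sub_zero]
          rw [Finset.sum_eq_single i (fun j _ e => ?_) (by simp)] at a
          · exact (mul_eq_zero.1 a).resolve_right (mul_ne_zero (sub_ne_zero.2 (hθ.ne fun e => by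
              rw [e] at hi; simp at hi)) (hm i))
          · by_cases c1 : (j : ℕ) = r + 1
            · rw [show j = ⟨r + 1, c⟩ from Fin.ext c1, sub_self, zero_mul, mul_zero]
            by_cases c2 : (j : ℕ) < r
            · rw [ih i j (.inr c2), zero_mul]
            · rw [h i j (by have := Fin.val_ne_of_ne e; omega), zero_mul]
        · have a := h1 i
          rw [Finset.sum_eq_single i (fun j _ e => ?_) (by simp)] at a
          · exact (mul_eq_zero.1 a).resolve_right (hm i)
          · rw [ih i j (.inr (by have := Fin.val_ne_of_ne e; omega)), zero_mul]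
      intro i j e
      by_cases c : (i : ℕ) < r ∨ (j : ℕ) < r
      · exact ih i j c
      by_cases c0 : i = j
      · exact c0 ▸ d i (by rw [← c0] at e c; omega)
      have c1 := Fin.val_ne_of_ne c0
      by_cases c2 : (i : ℕ) + 1 < j ∨ (j : ℕ) + 1 < i
      · exact h i j c2
      by_cases c3 : (i : ℕ) = r
      · have a := h1 i
        rw [Finset.sum_eq_single j (fun t _ e => ?_) (by simp)] at a
        · exact (mul_eq_zero.1 a).resolve_right (hm j)
        · have := Fin.val_ne_of_ne e
          by_cases c4 : t = i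
          · rw [c4, d i c3, zero_mul]
          have := Fin.val_ne_of_ne c4
          by_cases c5 : (t : ℕ) < r
          · rw [ih i t (.inr c5), zero_mul]
          · rw [h i t (by omega), zero_mul]
      · have a := h3 j
        rw [Finset.sum_eq_single i (fun t _ e => ?_) (by simp)] at a
        · exact (mul_eq_zero.1 a).resolve_left (hs i)
        · have := Fin.val_ne_of_ne e
          by_cases c4 : t = j
          · rw [c4, d j (by omega), mul_zero]
          have := Fin.val_ne_of_ne c4
          by_cases c5 : (t : ℕ) < r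
          · rw [ih t j (.inl c5), mul_zero]
          · rw [h t j (by omega), mul_zero]
  ext i j
  exact key (i + 1) i j (.inl (Nat.lt_succ_self _))

/-- The matrix of an endomorphism. -/
noncomputable abbrev mt (b : Basis (Fin n) K V) : End K V ≃ₐ[K] Matrix (Fin n) (Fin n) K :=
  LinearMap.toMatrixAlgEquiv b

lemma mt_eq (b : Basis (Fin n) K V) (X : End K V) : mt b X = LinearMap.toMatrix b b X := rfl

lemma mt_change (a b : Basis (Fin n) K V) (X : End K V) :
    mt a X * a.toMatrix b = a.toMatrix b * mt b X := by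
  rw [mt_eq, mt_eq, linearMap_toMatrix_mul_basis_toMatrix, basis_toMatrix_mul_linearMap_toMatrix]

/-- A Leonard pair with its two eigenbases. -/
structure LP (A B : End K V) (a b : Basis (Fin n) K V) (θ φ : Fin n → K) : Prop where
  dA : mt a A = diagonal θ
  dB : mt b B = diagonal φ
  tB : IsIrredTridiagonal (mt a B)
  tA : IsIrredTridiagonal (mt b A)

variable {A B C X : End K V} {a b c : Basis (Fin n) K V} {θ φ η : Fin n → K}

lemma LP.symm (h : LP A B a b θ φ) : LP B A b a φ θ := ⟨h.dB, h.dA, h.tA, h.tB⟩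

lemma mt_rev (a : Basis (Fin n) K V) (X : End K V) (i j : Fin n) :
    mt (a.reindex Fin.revPerm) X i j = mt a X i.rev j.rev := by
  simp [mt_eq, LinearMap.toMatrix_apply]

lemma LP.rev (h : LP A B a b θ φ) : LP A B (a.reindex Fin.revPerm) b (fun i => θ i.rev) φ where
  dA := by
    ext i j
    simp [mt_rev, h.dA, diagonal_apply]
  dB := h.dB
  tB := ⟨fun i j e => by
    rw [mt_rev]
    exact h.tB.1 _ _ (by simp only [Fin.val_rev]; omega), fun i j e => by
    rw [mt_rev, mt_rev]
    exact (h.tB.2 _ _ (by simp only [Fin.val_rev]; omega)).symm⟩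
  tA := h.tA

lemma LP.affine (h : LP A B a b θ φ) (x : K) {y : K} (hy : y ≠ 0) :
    LP (x • 1 + y • A) B a b (fun i => x + y * θ i) φ where
  dA := by
    rw [map_add, map_smul, map_smul, map_one, h.dA]
    ext i j
    by_cases e : i = j <;> simp [e]
  dB := h.dB
  tB := h.tB
  tA := h.tA.of_off hy fun i j e => by
    rw [map_add, map_smul, map_smul, map_one]
    simp [e]

lemma col_ne (a b : Basis (Fin n) K V) (j : Fin n) : (fun i => a.toMatrix b i j) ≠ 0 := fun e => by
  have := congrFun (congrFun (b.toMatrix_mul_toMatrix_flip a) j) j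
  rw [mul_apply, Finset.sum_eq_zero fun t _ => by rw [congrFun e t]; simp] at this
  simp at this

lemma row_ne (a b : Basis (Fin n) K V) (i : Fin n) : (fun j => a.toMatrix b i j) ≠ 0 := fun e => by
  have := congrFun (congrFun (a.toMatrix_mul_toMatrix_flip b) i) i
  rw [mul_apply, Finset.sum_eq_zero fun t _ => by rw [congrFun e t]; simp] at this
  simp at this

lemma LP.right (h : LP A B a b θ φ) (i j : Fin n) :
    ∑ t, mt b A i t * b.toMatrix a t j = θ j * b.toMatrix a i j := by
  rw [← mul_apply, mt_change, h.dA, mul_diagonal, mul_comm]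

lemma LP.left (h : LP A B a b θ φ) (i j : Fin n) :
    ∑ t, a.toMatrix b i t * mt b A t j = θ i * a.toMatrix b i j := by
  rw [← mul_apply, ← mt_change, h.dA, diagonal_mul]

lemma LP.S0 (h : LP A B a b θ φ) {z : Fin n} (hz : (z : ℕ) = 0) (j : Fin n) :
    b.toMatrix a z j ≠ 0 := fun e =>
  col_ne b a j (eig_zero h.tA (fun i => h.right i j) fun i hi => by
    rwa [show i = z from Fin.ext (hi.trans hz.symm)])

lemma LP.T0 (h : LP A B a b θ φ) {z : Fin n} (hz : (z : ℕ) = 0) (i : Fin n) :
    a.toMatrix b i z ≠ 0 := fun e =>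
  row_ne a b i (eig_zero h.tA.transpose (fun j => by
    simpa only [transpose_apply, mul_comm] using h.left i j) fun j hj => by
    rwa [show j = z from Fin.ext (hj.trans hz.symm)])

lemma LP.inj (h : LP A B a b θ φ) : Function.Injective θ := fun i j e => by
  by_contra c
  let z : Fin n := ⟨0, i.pos⟩
  have v := eig_zero (v := fun t => b.toMatrix a z j * b.toMatrix a t i -
      b.toMatrix a z i * b.toMatrix a t j) (t := θ i) h.tA (fun t => by
    simp only [mul_sub, Finset.sum_sub_distrib, mul_left_comm (mt b A t _), ← Finset.mul_sum,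
      h.right, e]
    ring) fun t ht => by rw [show t = z from Fin.ext ht]; ring
  have w : ∑ t, a.toMatrix b i t * (b.toMatrix a z j * b.toMatrix a t i -
      b.toMatrix a z i * b.toMatrix a t j) = 0 :=
    Finset.sum_eq_zero fun t _ => by rw [congrFun v t]; simp
  simp only [mul_sub, Finset.sum_sub_distrib, mul_left_comm (a.toMatrix b i _), ← Finset.mul_sum,
    ← mul_apply, Basis.toMatrix_mul_toMatrix_flip, one_apply_eq, one_apply_ne c] at w
  exact h.S0 (z := z) rfl j (by simpa using w)

/-- A map that is tridiagonal in the first basis is determined by the first row and the first two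
columns of its matrix in the second basis. -/
lemma LP.rigid (h : LP A B a b θ φ) (hX : Band 1 (mt a X))
    (h0 : ∀ r s : Fin n, (r : ℕ) = 0 ∨ (s : ℕ) ≤ 1 → mt b X r s = 0) : X = 0 := by
  rcases Nat.eq_zero_or_pos n with rfl | hn
  · exact (mt a).injective (Subsingleton.elim _ _)
  let z : Fin n := ⟨0, hn⟩
  have c : ∀ s : Fin n, (s : ℕ) ≤ 1 → ∀ i, (mt a X * a.toMatrix b) i s = 0 := fun s hs i => by
    rw [mt_change, mul_apply]
    exact Finset.sum_eq_zero fun t _ => by rw [h0 t s (.inr hs), mul_zero]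
  refine (mt a).injective ((tri_zero hX h.inj (h.T0 (z := z) rfl) (h.S0 (z := z) rfl)
    (fun i => c z zero_le_one i) (fun i => ?_) fun j => ?_).trans (map_zero _).symm)
  · simp only [← h.left]
    change (mt a X * (a.toMatrix b * mt b A)) i z = 0
    rw [← Matrix.mul_assoc, mul_apply]
    refine Finset.sum_eq_zero fun t _ => ?_
    by_cases e : (t : ℕ) ≤ 1
    · rw [c t e, zero_mul]
    · rw [h.tA.1 t z (.inr (by simp only [z]; omega)), mul_zero]
  · rw [← mul_apply, ← mt_change, mul_apply]
    exact Finset.sum_eq_zero fun t _ => by rw [h0 z t (.inl rfl), zero_mul]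

lemma LP.dep (h : LP A B a b θ φ) {ι : Type} [Fintype ι] (f : ι → End K V) (p : Finset (ℕ × ℕ))
    (k : ℕ) (hc : p.card < Fintype.card ι) (h1 : ∀ i, Band 1 (mt a (f i)))
    (h2 : ∀ i, Band k (mt b (f i)))
    (hp : ∀ r s : ℕ, r = 0 ∨ s ≤ 1 → (r, s) ∈ p ∨ r + k < s ∨ s + k < r) :
    ∃ g : ι → K, ∑ i, g i • f i = 0 ∧ ∃ i, g i ≠ 0 := by
  classical
  let w : ι → p → K := fun i x =>
    if e : x.1.1 < n ∧ x.1.2 < n then mt b (f i) ⟨_, e.1⟩ ⟨_, e.2⟩ else 0
  obtain ⟨g, e, hg⟩ := Fintype.not_linearIndependent_iff.1 fun l : LinearIndependent K w => by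
    have := l.fintype_card_le_finrank
    rw [finrank_fintype_fun_eq_card, Fintype.card_coe] at this
    omega
  refine ⟨g, h.rigid (fun r s e => ?_) fun r s e' => ?_, hg⟩
  · rw [map_sum, Matrix.sum_apply]
    exact Finset.sum_eq_zero fun i _ => by rw [map_smul, Matrix.smul_apply, h1 i r s e, smul_zero]
  · rw [map_sum, Matrix.sum_apply]
    rcases hp r s e' with u | u
    · have := congrFun e ⟨_, u⟩
      simpa [w] using this
    · exact Finset.sum_eq_zero fun i _ => by rw [map_smul, Matrix.smul_apply, h2 i r s u, smul_zero]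

end Pool.Agent.P.MP_4722b0_al.X
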