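import Mathlib

/-! Leonard triples and the `q`-commutator relations: definitions. -/

namespace Pool.Agent.P.MP_4722b0_al.X

open Module

/-- A square matrix is irreducible tridiagonal: entries with `|i - j| > 1` vanish, and the entries
directly above and directly below the main diagonal are all nonzero. -/
def IsIrredTridiagonal {K : Type} [Field K] {n : ℕ} (M : Matrix (Fin n) (Fin n) K) : Prop :=
  (∀ i j : Fin n, (i : ℕ) + 1 < j ∨ (j : ℕ) + 1 < i → M i j = 0) ∧
    (∀ i j : Fin n, (i : ℕ) + 1 = j → M i j ≠ 0 ∧ M j i ≠ 0)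

/-- There is a basis of `V` in which `X` is diagonal and `Y`, `Z` are irreducible tridiagonal. -/
def DiagTriTri {K V : Type} [Field K] [AddCommGroup V] [Module K V] (X Y Z : V →ₗ[K] V) : Prop :=
  ∃ (n : ℕ) (b : Basis (Fin n) K V), (LinearMap.toMatrix b b X).IsDiag ∧
    IsIrredTridiagonal (LinearMap.toMatrix b b Y) ∧ IsIrredTridiagonal (LinearMap.toMatrix b b Z)

/-- `A, B, E` is a Leonard triple on `V`. -/
def IsLeonardTriple {K V : Type} [Field K] [AddCommGroup V] [Module K V] (A B E : V →ₗ[K] V) :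
    Prop :=
  DiagTriTri A B E ∧ DiagTriTri B A E ∧ DiagTriTri E A B

/-- The three `q`-commutators lie in the span of `I, A, B, E`. -/
def QComm {K V : Type} [Field K] [AddCommGroup V] [Module K V] (q : K) (A B E : V →ₗ[K] V) :
    Prop :=
  A ∘ₗ B - q • (B ∘ₗ A) ∈ Submodule.span K ({LinearMap.id, A, B, E} : Set (V →ₗ[K] V)) ∧
    B ∘ₗ E - q • (E ∘ₗ B) ∈ Submodule.span K ({LinearMap.id, A, B, E} : Set (V →ₗ[K] V)) ∧
      E ∘ₗ A - q • (A ∘ₗ E) ∈ Submodule.span K ({LinearMap.id, A, B, E} : Set (V →ₗ[K] V))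

end Pool.Agent.P.MP_4722b0_al.X
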