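import Pool.Agent.P.MP_4722b0_al.X.Rel
import Pool.Agent.P.MP_4722b0_al.Sl2

/-! Dependent Leonard triples from `sl₂` in characteristic other than two. -/

namespace Pool.Agent.P.MP_4722b0_al.X

open Module Polynomial

variable {K V : Type} [Field K] [AddCommGroup V] [Module K V] {d : ℕ}

lemma symT_isDiag {a b c e : K} (hb : b = 0) (hc : c = 0) : (symT d a b c e).IsDiag := by
  intro i j hij
  simp [hb, hc, symT_diag, hij]

lemma symT_irred (hK : ∀ k : ℕ, 0 < k → k ≤ d → (k : K) ≠ 0) {a b c e : K} (hb : b ≠ 0)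
    (hc : c ≠ 0) : IsIrredTridiagonal (symT d a b c e) := by
  refine ⟨fun i j h => ?_, fun i j h => ⟨?_, ?_⟩⟩
  · simp only [symT]
    rw [if_neg (by omega), if_neg (by omega), if_neg (by omega)]
    simp
  · simp only [symT]
    rw [if_neg (by omega), if_neg (by omega), if_pos h]
    simp [hK j (by omega) (by omega), hb]
  · simp only [symT]
    rw [if_neg (by omega), if_pos h.symm, if_neg (by omega)]
    simp [hK (d - i) (by omega) (by omega), hc]

lemma emb_symT (b0 : Basis (Fin (d + 1)) K V) (a b c e : K) (x : V) :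
    emb b0 (Matrix.toLin b0 b0 (symT d a b c e) x) =
      opD d (C a + C c * X) (C b + C (e - a) * X - C c * X ^ 2) (emb b0 x) :=
  emb_toLin b0 _ _ a b c e (by simp) (by simp; ring) x

/-- The basis attached to two points of the line. -/
lemma exists_conj (hK : ∀ k : ℕ, 0 < k → k ≤ d → (k : K) ≠ 0) (b0 : Basis (Fin (d + 1)) K V)
    {x y : K} (hxy : x - y ≠ 0) : ∃ w : Basis (Fin (d + 1)) K V, ∀ a b c e : K, ∃ a' e' : K,
      LinearMap.toMatrix w w (Matrix.toLin b0 b0 (symT d a b c e)) =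
        symT d a' ((b + (a - e) * y - c * y ^ 2) / (x - y))
          (-(b + (a - e) * x - c * x ^ 2) / (x - y)) e' := by
  have n1 : ∀ z : K, (X + C z).natDegree ≤ 1 := fun z => (natDegree_X_add_C z).le
  have hli : LinearIndependent K (fam b0 (X + C x) (X + C y)) := by
    refine End.eigenvectors_linearIndependent'
      (Matrix.toLin b0 b0 (symT d y (-(x * y)) 1 (-x)) : End K V)
      (fun i : Fin (d + 1) => ((d - i : ℕ) : K) * 0 + (i : ℕ) * (y - x)) (fun i j hij => ?_) _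
      fun i => ⟨?_, fun h => ?_⟩
    · wlog l : (i : ℕ) ≤ j generalizing i j
      · exact (this j i hij.symm (by omega)).symm
      by_contra u
      have := Fin.val_ne_of_ne u
      refine mul_ne_zero (hK (j - i) (by omega) (by omega)) hxy ?_
      rw [Nat.cast_sub l]
      linear_combination hij
    · rw [End.mem_eigenspace_iff, apply_fam b0 _ _ _ _ _ (emb_symT b0 _ _ _ _) (n1 x) (n1 y)
        0 0 0 (y - x) (by simp; ring) (by simp; ring)]
      simp [symT_diag]
    · have := emb_fam b0 _ _ (n1 x) (n1 y) i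
      rw [h, map_zero] at this
      exact mul_ne_zero (pow_ne_zero _ (X_add_C_ne_zero x)) (pow_ne_zero _ (X_add_C_ne_zero y))
        this.symm
  refine ⟨basisOfLinearIndependentOfCardEqFinrank hli (by simp [finrank_eq_card_basis b0]),
    fun a b c e => ?_⟩
  obtain ⟨p, hp⟩ : ∃ p, p = (b + (a - e) * y - c * y ^ 2) / (x - y) := ⟨_, rfl⟩
  obtain ⟨r, hr⟩ : ∃ r, r = -(b + (a - e) * x - c * x ^ 2) / (x - y) := ⟨_, rfl⟩
  rw [← hp, ← hr]
  have hp' := congrArg C ((eq_div_iff hxy).1 hp)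
  have hr' := congrArg C ((eq_div_iff hxy).1 hr)
  simp only [map_mul, map_sub, map_add, map_neg, map_pow] at hp' hr'
  refine ⟨x * c + e - r, y * c + e - p, toMatrix_fam b0 _ _ _ _ _ _ (fun i => by simp)
    (emb_symT b0 _ _ _ _) (n1 x) (n1 y) _ _ _ _ ?_ ?_⟩
  · simp
    linear_combination hr'
  · simp
    linear_combination -hp'

lemma exists_sl2 [FiniteDimensional K V] (hn : finrank K V = d + 1)
    (hK : ∀ k : ℕ, 0 < k → k ≤ d → (k : K) ≠ 0) (h2 : (2 : K) ≠ 0) {t : K} (t0 : t ≠ 0)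
    (t1 : 1 - t ≠ 0) (t2 : 1 + t ≠ 0) :
    ∃ A B E : End K V, IsLeonardTriple A B E ∧ ¬ Ind A B E := by
  let b0 := finBasisOfFinrankEq K V hn
  have t3 : -1 - -t ≠ 0 := fun e => t1 (by linear_combination -e)
  have k : ∀ {u v : K}, v ≠ 0 → u = 2 * t ∨ u = -2 ∨ u = -2 * t ∨ u = 2 ∨ u = 4 * (1 + t) ∨
      u = -4 * t * (1 + t) → u / v ≠ 0 := fun hv h => div_ne_zero (by
    have h4 : (4 : K) ≠ 0 := fun e => mul_ne_zero h2 h2 (by linear_combination e)
    rcases h with rfl | rfl | rfl | rfl | rfl | rfl <;> simp [*]) hv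
  refine ⟨Matrix.toLin b0 b0 (symT d 1 0 0 (-1)),
    Matrix.toLin b0 b0 (symT d (1 + t) (-2 * t) 2 (-(1 + t))),
    Matrix.toLin b0 b0 (symT d (-(1 + t)) (-2 * t) 2 (1 + t)), ⟨⟨d + 1, b0, ?_, ?_, ?_⟩, ?_, ?_⟩,
    fun h => one_ne_zero (h 0 (2 * (1 + t)) (-1) 1 ?_).2.2.2⟩
  · rw [LinearMap.toMatrix_toLin]
    exact symT_isDiag rfl rfl
  · rw [LinearMap.toMatrix_toLin]
    exact symT_irred hK (by simp [*]) h2
  · rw [LinearMap.toMatrix_toLin]
    exact symT_irred hK (by simp [*]) h2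
  · obtain ⟨w, hw⟩ := exists_conj hK b0 t1
    obtain ⟨_, _, e1⟩ := hw 1 0 0 (-1)
    obtain ⟨_, _, e2⟩ := hw (1 + t) (-2 * t) 2 (-(1 + t))
    obtain ⟨_, _, e3⟩ := hw (-(1 + t)) (-2 * t) 2 (1 + t)
    exact ⟨d + 1, w, e2 ▸ symT_isDiag (by ring) (by ring),
      e1 ▸ symT_irred hK (k t1 (by grind)) (k t1 (by grind)),
      e3 ▸ symT_irred hK (k t1 (by grind)) (k t1 (by grind))⟩
  · obtain ⟨w, hw⟩ := exists_conj hK b0 t3
    obtain ⟨_, _, e1⟩ := hw 1 0 0 (-1)
    obtain ⟨_, _, e2⟩ := hw (1 + t) (-2 * t) 2 (-(1 + t))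
    obtain ⟨_, _, e3⟩ := hw (-(1 + t)) (-2 * t) 2 (1 + t)
    exact ⟨d + 1, w, e3 ▸ symT_isDiag (by ring) (by ring),
      e1 ▸ symT_irred hK (k t3 (by grind)) (k t3 (by grind)),
      e2 ▸ symT_irred hK (k t3 (by grind)) (k t3 (by grind))⟩
  · simp only [← map_smul, zero_smul, zero_add, ← map_add]
    rw [← map_zero (Matrix.toLin b0 b0)]
    congr 1
    ext i j
    simp only [symT, Matrix.add_apply, Matrix.smul_apply, smul_eq_mul, Matrix.zero_apply]
    split_ifs <;> ring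

end Pool.Agent.P.MP_4722b0_al.X
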