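import Pool.Agent.P.MP_4722b0_al.X.Rel

/-! Dependent Leonard triples in characteristic two. -/

namespace Pool.Agent.P.MP_4722b0_al.X

open Module Matrix

variable {K V : Type} [Field K] [AddCommGroup V] [Module K V] {n : ℕ}

/-- The columns of `S` are eigenvectors of `T`, and `S` makes the diagonal matrix tridiagonal. -/
def Step (e : K) (x y : Fin n → K) (T T' : Matrix (Fin n) (Fin n) K) : Prop :=
  ∃ S : Matrix (Fin n) (Fin n) K, T * S = S * diagonal y ∧
    diagonal x * S = S * (T' - diagonal fun i => e + y i) ∧ Function.Injective y ∧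
    ∃ z, ∀ j, S z j ≠ 0

lemma Step.basis {e : K} {x y : Fin n → K} {T T' : Matrix (Fin n) (Fin n) K}
    (h : Step e x y T T') (a : Basis (Fin n) K V) {A B : End K V} (hA : mt a A = diagonal x)
    (hB : mt a B = T) : ∃ b : Basis (Fin n) K V, mt b B = diagonal y ∧
      mt b A = T' - diagonal fun i => e + y i := by
  obtain ⟨S, h1, h2, hy, z, hz⟩ := h
  have hS : IsUnit S := linearIndependent_cols_iff_isUnit.1
    (End.eigenvectors_linearIndependent' (toLin' T) y hy S.col fun j =>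
      ⟨End.mem_eigenspace_iff.2 (funext fun i => by
        have := congrFun (congrFun h1 i) j
        rw [mul_diagonal, mul_comm] at this
        exact this), fun u => hz j (congrFun u z)⟩)
  let b := a.map (toLinearEquiv a S ((isUnit_iff_isUnit_det _).1 hS))
  have hb : a.toMatrix b = S := by
    ext i j
    simp [b, Basis.toMatrix_apply, toLin_self, Finsupp.single_apply]
  refine ⟨b, hS.mul_left_cancel ?_, hS.mul_left_cancel ?_⟩
  · rw [← h1, ← hB, ← hb, mt_change]
  · rw [← h2, ← hA, ← hb, mt_change]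

lemma exists_of_step (hn : finrank K V = n) [FiniteDimensional K V] {e : K} {x y w : Fin n → K}
    {T1 T2 T3 : Matrix (Fin n) (Fin n) K} (h1 : IsIrredTridiagonal T1)
    (h2 : IsIrredTridiagonal T2) (h3 : IsIrredTridiagonal T3) (s1 : Step e x y T1 T2)
    (s2 : Step e y w T2 T3) : ∃ A B C : End K V, IsLeonardTriple A B C ∧ ¬ Ind A B C := by
  let a := finBasisOfFinrankEq K V hn
  obtain ⟨A, hA⟩ := (mt a).surjective (diagonal x)
  obtain ⟨B, hB⟩ := (mt a).surjective T1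
  obtain ⟨b, b1, b2⟩ := s1.basis a hA hB
  have b3 : mt b (e • 1 + A + B) = T2 := by
    rw [map_add, map_add, map_smul, map_one, b1, b2]
    ext i j
    by_cases u : i = j
    · simp [u]
      ring
    · simp [u]
  obtain ⟨c, c1, c2⟩ := s2.basis b b1 b3
  have tb : IsIrredTridiagonal (mt c B) := h3.of_off one_ne_zero fun i j u => by simp [c2, u]
  refine ⟨A, B, e • 1 + A + B, LT.isLeonardTriple (a := a) (b := b) (c := c)
    ⟨⟨hA, b1, hB ▸ h1, h2.of_off one_ne_zero fun i j u => by simp [b2, u]⟩, ⟨b1, c1, b3 ▸ h2, tb⟩,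
      c1, hA, tb.of_off (neg_ne_zero.2 one_ne_zero) fun i j u => ?_,
      h1.of_off one_ne_zero fun i j u => by simp [hA, hB, u]⟩,
    fun h => one_ne_zero (h e 1 1 (-1) (by module)).2.1⟩
  have := congrFun (congrFun c1 i) j
  simp only [map_add, map_smul, map_one, Matrix.add_apply, Matrix.smul_apply, one_apply_ne u,
    diagonal_apply_ne _ u, smul_zero, zero_add] at this
  linear_combination this

variable [CharP K 2]

/-- The tridiagonal matrix in dimension three. -/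
def T3 (a b : K) : Matrix (Fin 3) (Fin 3) K :=
  !![1 / a, 1 / a, 0;
     (a + 1) ^ 2 / a, (a + 1) ^ 2 / a + a * (a + b) / (a + 1), a * (a + b) / (a + 1);
     0, (b + 1) / (a + 1), (b + 1) / (a + 1)]

/-- Its eigenvectors. -/
def S3 (a b : K) : Matrix (Fin 3) (Fin 3) K :=
  !![1, 1 / (b + 1) ^ 2, b / (b + 1) ^ 2;
     1, (a * b + 1) / (b + 1) ^ 2, b * (a + 1) / (b + 1) ^ 2;
     1, 1 / (b + 1), b * (a + 1) / ((a + b) * (b + 1))]

/-- The conditions on the parameters. -/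
def G3 (a b : K) : Prop := a ≠ 0 ∧ a + 1 ≠ 0 ∧ b ≠ 0 ∧ b + 1 ≠ 0 ∧ a + b ≠ 0 ∧ a + b + 1 ≠ 0

lemma G3.next {a b : K} (h : G3 a b) : G3 b (a + b + 1) := by
  obtain ⟨h1, h2, h3, h4, h5, h6⟩ := h
  refine ⟨h3, h4, h6, fun u => h5 ?_, fun u => h2 ?_, fun u => h1 ?_⟩ <;> grind

omit [CharP K 2] in
lemma G3.irr {a b : K} (h : G3 a b) : IsIrredTridiagonal (T3 a b) := by
  obtain ⟨h1, h2, h3, h4, h5, h6⟩ := h
  constructor <;> intro i j u <;> fin_cases i <;> fin_cases j <;> simp [T3, *] at u ⊢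

lemma G3.step {a b : K} (h : G3 a b) :
    Step 0 ![0, a, 1] ![0, b, 1] (T3 a b) (T3 b (a + b + 1)) := by
  obtain ⟨h1, h2, h3, h4, h5, h6⟩ := h
  refine ⟨S3 a b, ?_, ?_, fun i j u => ?_, 0, fun j => ?_⟩
  · ext i j
    rw [mul_diagonal]
    fin_cases i <;> fin_cases j <;> simp [T3, S3, mul_apply, Fin.sum_univ_three] <;>
      field_simp <;> grind
  · ext i j
    rw [Matrix.mul_sub, Matrix.sub_apply, mul_diagonal, diagonal_mul]
    fin_cases i <;> fin_cases j <;> simp [T3, S3, mul_apply, Fin.sum_univ_three] <;>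
      field_simp <;> grind
  · fin_cases i <;> fin_cases j <;> simp at u ⊢ <;> grind
  · fin_cases j <;> simp [S3, *]

lemma exists_three [FiniteDimensional K V] (hn : finrank K V = 3)
    (hK : (2 : Cardinal) ^ 3 ≤ Cardinal.mk K) :
    ∃ A B C : End K V, IsLeonardTriple A B C ∧ ¬ Ind A B C := by
  obtain ⟨a, ha⟩ := Cardinal.exists_notMem_of_length_lt [(0 : K), 1]
    (lt_of_lt_of_le (by norm_num) hK)
  obtain ⟨b, hb⟩ := Cardinal.exists_notMem_of_length_lt [(0 : K), 1, a, a + 1]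
    (lt_of_lt_of_le (by norm_num) hK)
  simp only [List.mem_cons, List.not_mem_nil, or_false, not_or] at ha hb
  obtain ⟨a0, a1⟩ := ha
  obtain ⟨b0, b1, b2, b3⟩ := hb
  have h : G3 a b := ⟨a0, fun u => a1 (by grind), b0, fun u => b1 (by grind),
    fun u => b2 (by grind), fun u => b3 (by grind)⟩
  exact exists_of_step hn h.irr h.next.irr h.next.next.irr h.step h.next.step

/-- The tridiagonal matrix in dimension four. -/
def T4 (a b e : K) : Matrix (Fin 4) (Fin 4) K :=
  !![e * (a + b + e + 1) / a, e * (a + b + e + 1) / a, 0, 0;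
     (a + e) * (b + e + 1) / a, (a + e) * (b + e + 1) / a + a / (a + 1), a / (a + 1), 0;
     0, a / (a + 1), a / (a + 1) + (a + b + e) * (e + 1) / a, (a + b + e) * (e + 1) / a;
     0, 0, (b + e) * (a + e + 1) / a, (b + e) * (a + e + 1) / a]

/-- Its eigenvectors. -/
def S4 (a b e : K) : Matrix (Fin 4) (Fin 4) K :=
  !![1, e / (b + e), e / (b + e), e * (e + 1) / ((b + e) * (b + e + 1));
     1, (a * b + a * e + b * e + e ^ 2 + e) / ((b + e) * (a + b + e + 1)),
      (a * e + a + b * e + e ^ 2 + e) / ((b + e) * (a + b + e + 1)),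
      (a + e) * (e + 1) / ((b + e) * (a + b + e + 1));
     1, (a * e + b * e + b + e ^ 2 + e) / ((b + e) * (a + b + e + 1)),
      (a * b + a * e + a + b * e + b + e ^ 2 + e) / ((b + e) * (a + b + e + 1)),
      (a + e) * (e + 1) / ((b + e) * (a + b + e + 1));
     1, (a + e + 1) / (a + b + e + 1), (a + e + 1) / (a + b + e + 1),
      (a + e) * (a + e + 1) / ((a + b + e) * (a + b + e + 1))]

/-- The conditions on the parameters. -/
def G4 (a b e : K) : Prop := (a ≠ 0 ∧ a + 1 ≠ 0 ∧ b ≠ 0 ∧ b + 1 ≠ 0 ∧ a + b ≠ 0 ∧ a + b + 1 ≠ 0) ∧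
  e ≠ 0 ∧ e + 1 ≠ 0 ∧ a + e ≠ 0 ∧ a + e + 1 ≠ 0 ∧ b + e ≠ 0 ∧ b + e + 1 ≠ 0 ∧ a + b + e ≠ 0 ∧
    a + b + e + 1 ≠ 0

lemma G4.next {a b e : K} (h : G4 a b e) : G4 b (a + b) e := by
  obtain ⟨⟨h1, h2, h3, h4, h5, h6⟩, k1, k2, k3, k4, k5, k6, k7, k8⟩ := h
  refine ⟨⟨h3, h4, h5, h6, fun u => h1 ?_, fun u => h2 ?_⟩, k1, k2, k5, k6, k7, k8,
    fun u => k3 ?_, fun u => k4 ?_⟩ <;> grind

omit [CharP K 2] in
lemma G4.irr {a b e : K} (h : G4 a b e) : IsIrredTridiagonal (T4 a b e) := by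
  obtain ⟨⟨h1, h2, h3, h4, h5, h6⟩, k1, k2, k3, k4, k5, k6, k7, k8⟩ := h
  constructor <;> intro i j u <;> fin_cases i <;> fin_cases j <;> simp [T4, *] at u ⊢

lemma eig4 {a b e : K} (h1 : a ≠ 0) (h2 : a + 1 ≠ 0) (h5 : b + e ≠ 0) (h6 : b + e + 1 ≠ 0)
    (h7 : a + b + e ≠ 0) (h8 : a + b + e + 1 ≠ 0) :
    T4 a b e * S4 a b e = S4 a b e * diagonal ![0, b, 1, b + 1] := by
  ext i j
  rw [mul_diagonal]
  fin_cases i <;> fin_cases j <;> simp [T4, S4, mul_apply, Fin.sum_univ_four] <;>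
    field_simp <;> grind

lemma tri4 {a b e : K} (h3 : b ≠ 0) (h4 : b + 1 ≠ 0) (h5 : b + e ≠ 0) (h6 : b + e + 1 ≠ 0)
    (h7 : a + b + e ≠ 0) (h8 : a + b + e + 1 ≠ 0) :
    diagonal ![0, a, 1, a + 1] * S4 a b e =
      S4 a b e * (T4 b (a + b) e - diagonal fun i => e + ![0, b, 1, b + 1] i) := by
  ext i j
  rw [Matrix.mul_sub, Matrix.sub_apply, mul_diagonal, diagonal_mul]
  fin_cases i <;> fin_cases j <;> simp [T4, S4, mul_apply, Fin.sum_univ_four] <;>
    field_simp <;> grind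

lemma G4.step {a b e : K} (h : G4 a b e) :
    Step e ![0, a, 1, a + 1] ![0, b, 1, b + 1] (T4 a b e) (T4 b (a + b) e) := by
  obtain ⟨⟨h1, h2, h3, h4, -, -⟩, k1, k2, -, -, k5, k6, k7, k8⟩ := h
  refine ⟨S4 a b e, eig4 h1 h2 k5 k6 k7 k8, tri4 h3 h4 k5 k6 k7 k8, fun i j u => ?_, 0,
    fun j => ?_⟩
  · clear h1 h2 k1 k2 k5 k6 k7 k8
    fin_cases i <;> fin_cases j <;> simp at u ⊢ <;> grind
  · fin_cases j <;> simp [S4, *]

lemma exists_four [FiniteDimensional K V] (hn : finrank K V = 4)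
    (hK : (2 : Cardinal) ^ 4 ≤ Cardinal.mk K) :
    ∃ A B C : End K V, IsLeonardTriple A B C ∧ ¬ Ind A B C := by
  obtain ⟨a, ha⟩ := Cardinal.exists_notMem_of_length_lt [(0 : K), 1]
    (lt_of_lt_of_le (by norm_num) hK)
  obtain ⟨b, hb⟩ := Cardinal.exists_notMem_of_length_lt [(0 : K), 1, a, a + 1]
    (lt_of_lt_of_le (by norm_num) hK)
  obtain ⟨e, he⟩ := Cardinal.exists_notMem_of_length_lt
    [(0 : K), 1, a, a + 1, b, b + 1, a + b, a + b + 1] (lt_of_lt_of_le (by norm_num) hK)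
  simp only [List.mem_cons, List.not_mem_nil, or_false, not_or] at ha hb he
  obtain ⟨a0, a1⟩ := ha
  obtain ⟨b0, b1, b2, b3⟩ := hb
  obtain ⟨e0, e1, e2, e3, e4, e5, e6, e7⟩ := he
  have t := CharTwo.two_eq_zero (R := K)
  have h : G4 a b e := ⟨⟨a0, fun u => a1 (by linear_combination u - t), b0,
    fun u => b1 (by linear_combination u - t), fun u => b2 (by linear_combination u - a * t),
    fun u => b3 (by linear_combination u - (a + 1) * t)⟩, e0,
    fun u => e1 (by linear_combination u - t), fun u => e2 (by linear_combination u - a * t),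
    fun u => e3 (by linear_combination u - (a + 1) * t),
    fun u => e4 (by linear_combination u - b * t),
    fun u => e5 (by linear_combination u - (b + 1) * t),
    fun u => e6 (by linear_combination u - (a + b) * t),
    fun u => e7 (by linear_combination u - (a + b + 1) * t)⟩
  exact exists_of_step hn h.irr h.next.irr h.next.next.irr h.step h.next.step

end Pool.Agent.P.MP_4722b0_al.X
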