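import Pool.Agent.P.MP_4722b0_al.X.Nec
import Pool.Agent.P.MP_4722b0_al.X.Ex1
import Pool.Agent.P.MP_4722b0_al.X.Ex2

/-! The two main statements in terms of linear independence. -/

namespace Pool.Agent.P.MP_4722b0_al.X

open Module

variable {K V : Type} [Field K] [AddCommGroup V] [Module K V] [FiniteDimensional K V]

lemma qcomm_iff {A B E : End K V} (h : IsLeonardTriple A B E) :
    (∃ q : K, q ≠ 0 ∧ QComm q A B E) ↔ finrank K V ≤ 2 ∨ Ind A B E := by
  obtain ⟨a, b, c, θ, φ, η, t⟩ := h.exists_lt rfl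
  by_cases hn : finrank K V ≤ 2
  · exact ⟨fun _ => .inl hn, fun _ => ⟨-1, neg_ne_zero.2 one_ne_zero, qcomm_small hn A B E⟩⟩
  · exact ⟨fun ⟨q, _, hq⟩ => .inr (t.ab.ind_of_mem (by omega) hq.1),
      fun u => t.qcomm (by omega) (u.resolve_left hn)⟩

lemma dep_iff (hn : 3 ≤ finrank K V) :
    (∃ A B E : End K V, IsLeonardTriple A B E ∧ ¬ Ind A B E) ↔
      ringChar K = 0 ∨ (ringChar K ≠ 2 ∧ finrank K V ≤ ringChar K ∧ Nat.card K ≠ 3) ∨
        (ringChar K = 2 ∧ finrank K V ≤ 4 ∧ (2 : Cardinal) ^ finrank K V ≤ Cardinal.mk K) := by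
  constructor
  · rintro ⟨A, B, E, h, hi⟩
    obtain ⟨n, e⟩ : ∃ n, finrank K V = n := ⟨_, rfl⟩
    obtain ⟨a, b, c, θ, φ, η, t⟩ := h.exists_lt e
    rw [e] at hn ⊢
    obtain ⟨A, B, E, θ, φ, η, t, hs⟩ := t.norm hn hi
    by_cases h0 : ringChar K = 0
    · exact .inl h0
    by_cases h2 : ringChar K = 2
    · have : CharP K 2 := ringChar.of_eq h2
      have h4 := t.le_four hs
      refine .inr (.inr ⟨h2, h4, ?_⟩)
      obtain rfl | rfl : n = 3 ∨ n = 4 := by omega
      exacts [t.eight hs, t.sixteen hs]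
    · exact .inr (.inl ⟨h2, t.le_char hs hn h0 h2, t.card_ne hs hn (Ring.two_ne_zero h2)⟩)
  · have k : ringChar K ≠ 2 → (∀ k : ℕ, 0 < k → k < finrank K V → ¬ ringChar K ∣ k) →
        Nat.card K ≠ 3 → ∃ A B E : End K V, IsLeonardTriple A B E ∧ ¬ Ind A B E := fun h2 hk h3 => by
      have h2' : (2 : K) ≠ 0 := Ring.two_ne_zero h2
      obtain ⟨t, t0, t1, t2⟩ : ∃ t : K, t ≠ 0 ∧ t ≠ 1 ∧ t ≠ -1 := by
        by_contra u
        refine h3 ((Set.ncard_univ K).symm.trans (Set.ncard_eq_three.2 ⟨0, 1, -1, zero_ne_one,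
          (neg_ne_zero.2 one_ne_zero).symm, fun e => h2' (by linear_combination e), ?_⟩))
        ext t
        simp only [Set.mem_univ, Set.mem_insert_iff, Set.mem_singleton_iff, true_iff]
        by_contra v
        exact u ⟨t, by simpa only [not_or] using v⟩
      exact exists_sl2 (d := finrank K V - 1) (by omega)
        (fun k h0 h1 e => hk k h0 (by omega) ((ringChar.spec K k).1 e)) h2' t0
        (sub_ne_zero.2 t1.symm) fun e => t2 (by linear_combination e)
    rintro (h0 | ⟨h2, hp, h3⟩ | ⟨h2, h4, hK⟩)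
    · have : CharZero K := (CharP.ringChar_zero_iff_CharZero K).1 h0
      refine k (by omega) (fun k k0 _ e => ?_) (by rw [Nat.card_eq_zero_of_infinite]; omega)
      rw [h0, zero_dvd_iff] at e
      omega
    · exact k h2 (fun k k0 k1 e => by have := Nat.le_of_dvd k0 e; omega) h3
    · have : CharP K 2 := ringChar.of_eq h2
      obtain e | e : finrank K V = 3 ∨ finrank K V = 4 := by omega
      exacts [exists_three e (e ▸ hK), exists_four e (e ▸ hK)]

end Pool.Agent.P.MP_4722b0_al.X
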