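import Pool.Agent.P.MP_4722b0_al.X.AW

/-! Leonard triples with `A + B + C = 0`: conditions on the field and the dimension. -/

namespace Pool.Agent.P.MP_4722b0_al.X

open Module Matrix

variable {K V : Type} [Field K] [AddCommGroup V] [Module K V] {n : ℕ}
variable {A B C X : End K V} {a b c : Basis (Fin n) K V} {θ φ η : Fin n → K}

lemma LP.ends (h : LP A B a b θ φ) {z o : Fin n} (hz : (z : ℕ) = 0) (ho : (o : ℕ) = 1) :
    (φ z - mt a B z z) * (θ o - θ z) = (θ z - mt b A z z) * (φ o - φ z) ∧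
      φ z - mt a B z z ≠ 0 := by
  have zo : z ≠ o := fun e => by rw [e] at hz; omega
  have u : ∀ t : Fin n, t ≠ z ∧ t ≠ o → (z : ℕ) + 1 < t := fun t e => by
    have := Fin.val_ne_of_ne e.1
    have := Fin.val_ne_of_ne e.2
    omega
  have l : ∀ i, a.toMatrix b i z * mt b A z z + a.toMatrix b i o * mt b A o z =
      θ i * a.toMatrix b i z := fun i => by
    rw [← h.left i z, Fintype.sum_eq_add z o zo fun t e => by
      rw [h.tA.1 t z (.inr (u t e)), mul_zero]]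
  have r : ∀ j, mt a B z z * a.toMatrix b z j + mt a B z o * a.toMatrix b o j =
      φ j * a.toMatrix b z j := fun j => by
    rw [← h.symm.right z j, Fintype.sum_eq_add z o zo fun t e => by
      rw [h.tB.1 z t (.inl (u t e)), zero_mul]]
  refine ⟨mul_left_cancel₀ (h.T0 hz z) ?_, fun e => ?_⟩
  · linear_combination (φ o - mt a B z z) * l z + mt b A o z * r o - mt a B z o * l o -
      (θ o - mt b A z z) * r z
  · exact mul_ne_zero (h.tB.adj (i := z) (j := o) (.inl (by omega))) (h.T0 hz o)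
      (by linear_combination r z + a.toMatrix b z z * e)

lemma LT.ends (h : LT A B C a b c θ φ η) (hs : A + B + C = 0) {z o : Fin n} (hz : (z : ℕ) = 0)
    (ho : (o : ℕ) = 1) : ∃ P : K, P ≠ 0 ∧
      2 * P = (θ z + φ z + η z) * (θ o - θ z + (φ o - φ z) - (η o - η z)) := by
  obtain ⟨e1, n1⟩ := h.ab.ends hz ho
  obtain ⟨e2, -⟩ := h.bc.ends hz ho
  obtain ⟨e3, -⟩ := h.ca.ends hz ho
  have sa := congrFun (congrFun (congrArg (mt a) hs) z) z
  have sb := congrFun (congrFun (congrArg (mt b) hs) z) z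
  have sc := congrFun (congrFun (congrArg (mt c) hs) z) z
  simp only [map_add, map_zero, h.ab.dA, h.ab.dB, h.ca.dA, Matrix.add_apply, diagonal_apply_eq,
    Matrix.zero_apply] at sa sb sc
  refine ⟨_, mul_ne_zero n1 (sub_ne_zero.2 (h.ab.inj.ne fun e : o = z => ?_)), ?_⟩
  · rw [e] at ho
    omega
  · linear_combination e1 - e2 + e3 - (θ o - θ z) * sa - (φ o - φ z) * sb + (η o - η z) * sc

lemma Rec.formula {γ : K} (h : Rec 2 γ θ) (hn : 2 ≤ n) : ∀ (i : ℕ) (hi : i < n),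
    2 * θ ⟨i, hi⟩ = 2 * θ ⟨0, by omega⟩ + 2 * i * (θ ⟨1, by omega⟩ - θ ⟨0, by omega⟩) +
      i * (i - 1) * γ
  | 0, _ => by simp
  | 1, _ => by simp; ring
  | i + 2, hi => by
    have e0 := h.formula hn i (by omega)
    have e1 := h.formula hn (i + 1) (by omega)
    have e2 := h ⟨i, by omega⟩ ⟨i + 1, by omega⟩ ⟨i + 2, hi⟩ rfl rfl
    push_cast at e1 ⊢
    linear_combination 2 * e2 + 2 * e1 - e0

lemma LT.le_char (h : LT A B C a b c θ φ η) (hs : A + B + C = 0) (hn : 3 ≤ n)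
    (h0 : ringChar K ≠ 0) (h2 : ringChar K ≠ 2) : n ≤ ringChar K := by
  have hp := (CharP.char_is_prime_or_zero K (ringChar K)).resolve_right h0
  have := hp.two_le
  by_contra u
  obtain ⟨γ, -, r, -⟩ := h.second (by omega) hs
  have e := r.formula (by omega) (ringChar K) (by omega)
  rw [ringChar.Nat.cast_ringChar] at e
  exact h.ab.ne (i := ringChar K) (by omega) (by omega) h0
    (mul_left_cancel₀ (Ring.two_ne_zero h2) (by linear_combination e))

lemma LT.card_ne (h : LT A B C a b c θ φ η) (hs : A + B + C = 0) (hn : 3 ≤ n)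
    (h2 : (2 : K) ≠ 0) : Nat.card K ≠ 3 := fun e => by
  have hs' : B + C + A = 0 := by rw [← hs]; abel
  have k : ∀ {A B C : End K V} {a b c : Basis (Fin n) K V} {θ φ η : Fin n → K},
      LT A B C a b c θ φ η → A + B + C = 0 →
      θ ⟨0, by omega⟩ + φ ⟨0, by omega⟩ + η ⟨0, by omega⟩ ≠ 0 := fun h hs u => by
    obtain ⟨P, p0, p⟩ := h.ends hs (z := ⟨0, by omega⟩) (o := ⟨1, by omega⟩) rfl rfl
    rw [u, zero_mul] at p
    exact mul_ne_zero h2 p0 p
  have k1 := k h hs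
  have k2 := k h.rev hs
  have k3 := k h.rot.rev hs'
  have k4 := k h.rev.rot.rev hs'
  have zr : (⟨0, by omega⟩ : Fin n) ≠ (⟨0, by omega⟩ : Fin n).rev := fun u => by
    have := congrArg Fin.val u
    simp only [Fin.val_rev] at this
    omega
  have k5 := h.ab.inj.ne zr
  have k6 := h.bc.inj.ne zr
  have : Finite K := Nat.finite_of_card_ne_zero (by omega)
  have := Fintype.ofFinite K
  generalize (⟨0, _⟩ : Fin n) = z at *
  have := List.Nodup.length_le_card (l := [θ z, θ z.rev, -φ z - η z, -φ z.rev - η z]) (by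
    simp only [List.nodup_cons, List.mem_cons, List.not_mem_nil, List.nodup_nil]
    grind)
  rw [← Nat.card_eq_fintype_card, e] at this
  simp at this

lemma pow_le [CharP K 2] {k : ℕ} (x : Fin k → K)
    (h : ∀ g : Fin k → K, (∀ i, g i = 0 ∨ g i = 1) → ∑ i, g i * x i = 0 → ∀ i, g i = 0) :
    (2 : Cardinal) ^ k ≤ Cardinal.mk K := by
  have := Cardinal.mk_le_of_injective (f := fun s : Fin k → Bool =>
    ∑ i, (if s i then 1 else 0) * x i) fun s t e => funext fun i => by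
      have := h (fun i => (if s i then 1 else 0) + if t i then 1 else 0)
        (fun i => by cases s i <;> cases t i <;> simp [CharTwo.add_self_eq_zero]) (by
          simp only [add_mul, Finset.sum_add_distrib]
          simp only at e
          rw [e, CharTwo.add_self_eq_zero]) i
      revert this
      cases s i <;> cases t i <;> simp
  simpa using this

lemma LT.le_four [CharP K 2] (h : LT A B C a b c θ φ η) (hs : A + B + C = 0) : n ≤ 4 := by
  by_contra u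
  obtain ⟨γ, -, r, -⟩ := h.second (by omega) hs
  have e1 := r ⟨0, by omega⟩ ⟨1, by omega⟩ ⟨2, by omega⟩ rfl rfl
  have e2 := r ⟨2, by omega⟩ ⟨3, by omega⟩ ⟨4, by omega⟩ rfl rfl
  have := h.ab.ne (by omega) (by omega) (by omega : 0 ≠ 4)
  grind

lemma LT.eight [CharP K 2] {a b c : Basis (Fin 3) K V} {θ φ η : Fin 3 → K}
    (h : LT A B C a b c θ φ η) (hs : A + B + C = 0) : (2 : Cardinal) ^ 3 ≤ Cardinal.mk K := by
  have k : ∀ {A B C : End K V} {a b c : Basis (Fin 3) K V} {θ φ η : Fin 3 → K},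
      LT A B C a b c θ φ η → A + B + C = 0 →
      θ 0 + φ 0 + η 0 = 0 ∨ θ 0 + φ 0 + η 0 = θ 1 + φ 1 + η 1 := fun h hs => by
    obtain ⟨P, -, p⟩ := h.ends hs (z := 0) (o := 1) rfl rfl
    grind
  have t : ∀ {x y u v w : K}, x ≠ y → x + u = 0 ∨ x + u = w → y + v = 0 ∨ y + v = w → u = v →
      x + y = w := by grind
  have k1 := k h hs
  have k2 : θ 2 + φ 0 + η 0 = 0 ∨ θ 2 + φ 0 + η 0 = θ 1 + φ 1 + η 1 := k h.rev hs
  have k3 : φ 2 + η 0 + θ 0 = 0 ∨ φ 2 + η 0 + θ 0 = φ 1 + η 1 + θ 1 :=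
    k h.rot.rev (by rw [← hs]; abel)
  have k4 : η 2 + θ 0 + φ 0 = 0 ∨ η 2 + θ 0 + φ 0 = η 1 + θ 1 + φ 1 :=
    k h.rot.rot.rev (by rw [← hs]; abel)
  have a01 := h.ab.inj.ne (by decide : (0 : Fin 3) ≠ 1)
  have a12 := h.ab.inj.ne (by decide : (1 : Fin 3) ≠ 2)
  have a02 := h.ab.inj.ne (by decide : (0 : Fin 3) ≠ 2)
  have b01 := h.bc.inj.ne (by decide : (0 : Fin 3) ≠ 1)
  have b12 := h.bc.inj.ne (by decide : (1 : Fin 3) ≠ 2)
  have b02 := h.bc.inj.ne (by decide : (0 : Fin 3) ≠ 2)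
  have c01 := h.ca.inj.ne (by decide : (0 : Fin 3) ≠ 1)
  have c12 := h.ca.inj.ne (by decide : (1 : Fin 3) ≠ 2)
  have c02 := h.ca.inj.ne (by decide : (0 : Fin 3) ≠ 2)
  have t1 : θ 0 + θ 2 = θ 1 + φ 1 + η 1 :=
    t a02 (u := φ 0 + η 0) (by simpa only [add_assoc] using k1) (by simpa only [add_assoc] using k2)
      rfl
  have t2 : φ 0 + φ 2 = θ 1 + φ 1 + η 1 :=
    t b02 (u := θ 0 + η 0) (by simpa only [add_assoc, add_comm, add_left_comm] using k1)
      (by simpa only [add_assoc, add_comm, add_left_comm] using k3) rfl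
  have t3 : η 0 + η 2 = θ 1 + φ 1 + η 1 :=
    t c02 (u := θ 0 + φ 0) (by simpa only [add_assoc, add_comm, add_left_comm] using k1)
      (by simpa only [add_assoc, add_comm, add_left_comm] using k4) rfl
  clear k k2 k3 k4 t
  refine pow_le ![θ 0 + θ 2, θ 0 + θ 1, φ 0 + φ 1] fun g hg e => ?_
  simp only [Fin.sum_univ_three, cons_val] at e
  have : g 0 = 0 ∧ g 1 = 0 ∧ g 2 = 0 := by
    rcases hg 0 with u | u <;> rcases hg 1 with v | v <;> rcases hg 2 with w | w <;>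
      rw [u, v, w] at e <;> grind
  intro i
  fin_cases i
  exacts [this.1, this.2.1, this.2.2]

lemma LT.om {a b c : Basis (Fin 4) K V} {θ φ η : Fin 4 → K} (h : LT A B C a b c θ φ η)
    (hs : A + B + C = 0) (hx : θ 3 + φ 0 = θ 1 + φ 2) (k : Fin 4) : η k + θ 3 + φ 0 ≠ 0 := by
  intro e
  have l := h.ab.left
  have r := h.ab.symm.right
  have w := h.ca.left k
  have hC : mt a C = -diagonal θ - mt a B := by
    rw [← h.ab.dA, ← map_neg, ← map_sub]
    congr 1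
    linear_combination (norm := module) hs
  have w0 := h.ca.T0 (z := 0) rfl k
  have m0 := h.ab.T0 (z := 0) rfl
  have tA := h.ab.tA.band
  have tB := h.ab.tB.band
  rw [hC] at w
  generalize a.toMatrix b = T, c.toMatrix a = W, mt b A = M, mt a B = N at *
  have w' : ∀ v : Fin 4 → K, ∑ i, W k i * ∑ j, N i j * v j =
      ∑ j, (θ 3 + φ 0 - θ j) * W k j * v j := fun v => by
    have w0 := w 0
    have w1 := w 1
    have w2 := w 2
    have w3 := w 3
    simp only [Fin.sum_univ_four, Matrix.sub_apply, Matrix.neg_apply, diagonal_apply,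
      Fin.reduceEq, if_true, if_false] at w0 w1 w2 w3 ⊢
    linear_combination -v 0 * w0 - v 1 * w1 - v 2 * w2 - v 3 * w3 -
      (W k 0 * v 0 + W k 1 * v 1 + W k 2 * v 2 + W k 3 * v 3) * e
  have l0 : ∀ j, T j 0 * M 0 0 + T j 1 * M 1 0 = θ j * T j 0 := fun j => by
    simpa [Fin.sum_univ_four, tA 2 0 (by decide), tA 3 0 (by decide)] using l j 0
  have l1 : ∀ j, T j 0 * M 0 1 + T j 1 * M 1 1 + T j 2 * M 2 1 = θ j * T j 1 := fun j => by
    simpa [Fin.sum_univ_four, tA 3 1 (by decide)] using l j 1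
  obtain ⟨y, hy⟩ : ∃ y, y = M 1 1 + M 0 0 - θ 3 - θ 2 := ⟨_, rfl⟩
  obtain ⟨x, hx0⟩ : ∃ x, x = (M 0 0 - θ 3) * (M 0 0 - θ 2) + M 0 1 * M 1 0 := ⟨_, rfl⟩
  have v : ∀ j, (θ j - θ 3) * (θ j - θ 2) * T j 0 =
      M 2 1 * M 1 0 * T j 2 + y * M 1 0 * T j 1 + x * T j 0 := fun j => by
    rw [hy, hx0]
    linear_combination -M 1 0 * l1 j - (θ j + M 0 0 - θ 3 - θ 2) * l0 j
  have nv : ∀ i, ∑ j, N i j * ((θ j - θ 3) * (θ j - θ 2) * T j 0) =
      (φ 2 * ((θ i - θ 3) * (θ i - θ 2)) + (φ 1 - φ 2) * y * (θ i - θ 3) +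
        ((φ 1 - φ 2) * y * (θ 3 - M 0 0) + (φ 0 - φ 2) * x)) * T i 0 := fun i => by
    have r0 := r i 0
    have r1 := r i 1
    have r2 := r i 2
    simp only [v, Fin.sum_univ_four] at r0 r1 r2 ⊢
    linear_combination M 2 1 * M 1 0 * r2 + y * M 1 0 * r1 + x * r0 - φ 2 * v i +
      (φ 1 - φ 2) * y * l0 i
  have k0 : (φ 1 - φ 2) * y * (θ 3 - M 0 0) + (φ 0 - φ 2) * x = 0 := by
    have := nv 3
    simp only [Fin.sum_univ_four, tB 3 0 (by decide), tB 3 1 (by decide)] at this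
    exact mul_right_cancel₀ (m0 3) (by linear_combination -this)
  have s1 := w' fun j => T j 0
  have s2 := w' fun j => (θ j - θ 3) * (θ j - θ 2) * T j 0
  simp only [r, nv, k0] at s1 s2
  simp only [Fin.sum_univ_four] at s1 s2
  have n1 := sub_ne_zero.2 (h.ab.inj.ne (by decide : (0 : Fin 4) ≠ 1))
  have n2 := sub_ne_zero.2 (h.ab.inj.ne (by decide : (0 : Fin 4) ≠ 2))
  have n3 := sub_ne_zero.2 (h.ab.inj.ne (by decide : (0 : Fin 4) ≠ 3))
  refine mul_ne_zero (mul_ne_zero (mul_ne_zero (mul_ne_zero n1 n2) n3) w0) (m0 0) ?_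
  linear_combination s2 - (φ 1 - φ 2) * y * s1 +
    ((θ 0 - θ 3) * (θ 0 - θ 2) * W k 0 * T 0 0 + (θ 1 - θ 3) * (θ 1 - θ 2) * W k 1 * T 1 0) * hx

lemma LT.sixteen [CharP K 2] {a b c : Basis (Fin 4) K V} {θ φ η : Fin 4 → K}
    (h : LT A B C a b c θ φ η) (hs : A + B + C = 0) : (2 : Cardinal) ^ 4 ≤ Cardinal.mk K := by
  obtain ⟨γ, γ', r1, r2, r3⟩ := h.second le_rfl hs
  obtain ⟨γ1, γ2, s1, s2, s3⟩ := h.rot.second le_rfl (by rw [← hs]; abel)
  have a0 := r1 0 1 2 rfl rfl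
  have a1 := r1 1 2 3 rfl rfl
  have b0 := r2 0 1 2 rfl rfl
  have b1 := r2 1 2 3 rfl rfl
  have c0 := r3 0 1 2 rfl rfl
  have c1 := r3 1 2 3 rfl rfl
  have d0 := s2 0 1 2 rfl rfl
  have d1 := s3 0 1 2 rfl rfl
  obtain ⟨P, -, p⟩ := h.ends hs (z := 0) (o := 1) rfl rfl
  obtain ⟨Q, -, q⟩ : ∃ Q : K, Q ≠ 0 ∧
    2 * Q = (θ 3 + φ 0 + η 0) * (θ 2 - θ 3 + (φ 1 - φ 0) - (η 1 - η 0)) :=
    h.rev.ends hs (z := 0) (o := 1) rfl rfl
  obtain rfl : γ' = γ := by grind
  have e2 : θ 2 = θ 0 + γ' := by grind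
  have e3 : θ 3 = θ 1 + γ' := by grind
  have f2 : φ 2 = φ 0 + γ' := by grind
  have g2 : η 2 = η 0 + γ' := by grind
  have g3 : η 3 = η 1 + γ' := by grind
  have o1 := h.om hs (by grind)
  have o2 : ∀ k, η k + θ 0 + φ 0 ≠ 0 := h.rev.om hs (show θ 0 + φ 0 = θ 2 + φ 2 by grind)
  have a01 := h.ab.inj.ne (by decide : (0 : Fin 4) ≠ 1)
  have a02 := h.ab.inj.ne (by decide : (0 : Fin 4) ≠ 2)
  have a03 := h.ab.inj.ne (by decide : (0 : Fin 4) ≠ 3)
  have b01 := h.bc.inj.ne (by decide : (0 : Fin 4) ≠ 1)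
  have b12 := h.bc.inj.ne (by decide : (1 : Fin 4) ≠ 2)
  have c01 := h.ca.inj.ne (by decide : (0 : Fin 4) ≠ 1)
  have c03 := h.ca.inj.ne (by decide : (0 : Fin 4) ≠ 3)
  have g1 : η 1 = η 0 + θ 0 + θ 1 + φ 0 + φ 1 := by
    have := o2 0
    grind
  have u0 := o1 0
  have u1 := o1 1
  have u2 := o1 2
  have u3 := o1 3
  have v0 := o2 0
  have v1 := o2 1
  have v2 := o2 2
  have v3 := o2 3
  rw [e3] at u0 u1 u2 u3 a03
  rw [g3] at u3 v3 c03
  rw [g2] at u2 v2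
  rw [g1] at u1 v1 u3 v3 c01 c03
  rw [e2] at a02
  rw [f2] at b12
  refine pow_le ![γ', θ 0 + θ 1, φ 0 + φ 1, η 0 + θ 0 + φ 0] fun g hg e => ?_
  simp only [Fin.sum_univ_four, cons_val] at e
  have : g 0 = 0 ∧ g 1 = 0 ∧ g 2 = 0 ∧ g 3 = 0 := by
    clear a0 a1 b0 b1 c0 c1 d0 d1 p q e2 e3 f2 g1 g2 g3 o1 o2 r1 r2 r3 s1 s2 s3
    rcases hg 0 with u | u <;> rcases hg 1 with v | v <;> rcases hg 2 with w | w <;>
      rcases hg 3 with x | x <;> rw [u, v, w, x] at e <;> grind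
  intro i
  fin_cases i
  exacts [this.1, this.2.1, this.2.2.1, this.2.2.2]

end Pool.Agent.P.MP_4722b0_al.X
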