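import Pool.Agent.P.MP_4722b0_al.X.Core

/-! The `q`-commutator relations hold exactly for linearly independent triples. -/

namespace Pool.Agent.P.MP_4722b0_al.X

open Module Matrix

variable {K V : Type} [Field K] [AddCommGroup V] [Module K V] {n : ℕ}
variable {A B C X : End K V} {a b c : Basis (Fin n) K V} {θ φ η : Fin n → K}

lemma LP.off (h : LP A B a b θ φ) (x0 x1 x2 r s : K) {i j : Fin n} (e : i ≠ j) :
    mt a (x0 • 1 + x1 • A + x2 • B + r • (A * B) + s • (B * A)) i j =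
      mt a B i j * (x2 + r * θ i + s * θ j) := by
  simp only [map_add, map_smul, map_mul, map_one, h.dA, Matrix.add_apply, Matrix.smul_apply,
    diagonal_mul, mul_diagonal, one_apply_ne e, diagonal_apply_ne _ e, smul_eq_mul]
  ring

lemma adj01 (hn : 3 ≤ n) : Adj (⟨0, by omega⟩ : Fin n) ⟨1, by omega⟩ := .inl rfl

lemma adj12 (hn : 3 ≤ n) : Adj (⟨1, by omega⟩ : Fin n) ⟨2, by omega⟩ := .inl rfl

lemma adj23 (hn : 4 ≤ n) : Adj (⟨2, by omega⟩ : Fin n) ⟨3, by omega⟩ := .inl rfl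

lemma Adj.symm {i j : Fin n} (h : Adj i j) : Adj j i := Or.symm h

lemma LP.ne (h : LP A B a b θ φ) {i j : ℕ} (hi : i < n) (hj : j < n) (e : i ≠ j) :
    θ ⟨i, hi⟩ - θ ⟨j, hj⟩ ≠ 0 :=
  sub_ne_zero.2 (h.inj.ne fun c => e (congrArg Fin.val c))

/-- The maps `I, A, B, A B, B A` are linearly independent. -/
lemma LP.ind5 (h : LP A B a b θ φ) (hn : 3 ≤ n) {x0 x1 x2 r s : K}
    (e : x0 • 1 + x1 • A + x2 • B + r • (A * B) + s • (B * A) = 0) :
    x0 = 0 ∧ x1 = 0 ∧ x2 = 0 ∧ r = 0 ∧ s = 0 := by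
  have k : ∀ {i j}, Adj i j → x2 + r * θ i + s * θ j = 0 := fun {i j} u => by
    have := h.off x0 x1 x2 r s u.ne
    rw [e, map_zero] at this
    exact (mul_eq_zero.1 this.symm).resolve_left (h.tB.adj u)
  have r0 : r = 0 := (mul_eq_zero.1 (by
    linear_combination k (adj01 hn) - k (adj12 hn).symm)).resolve_right
      (h.ne (by omega) (by omega) (by omega : 0 ≠ 2))
  have s0 : s = 0 := (mul_eq_zero.1 (by
    linear_combination k (adj01 hn).symm - k (adj12 hn))).resolve_right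
      (h.ne (by omega) (by omega) (by omega : 0 ≠ 2))
  have x20 : x2 = 0 := by simpa [r0, s0] using k (adj01 hn)
  have d : ∀ i, x0 + x1 * θ i = 0 := fun i => by
    have := congrFun (congrFun (congrArg (mt a) e) i) i
    simpa [r0, s0, x20, h.dA] using this
  have x10 : x1 = 0 := (mul_eq_zero.1 (by
    linear_combination d ⟨0, by omega⟩ - d ⟨1, by omega⟩)).resolve_right
      (h.ne (by omega) (by omega) (by omega : 0 ≠ 1))
  exact ⟨by simpa [x10] using d ⟨0, by omega⟩, x10, x20, r0, s0⟩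

lemma LP.b0 (h : LP A B a b θ φ) : Band 0 (mt a A) := h.dA ▸ band_diagonal θ

/-- The maps that are tridiagonal in both bases. -/
lemma LP.five (h : LP A B a b θ φ) (hn : 3 ≤ n) (h1 : Band 1 (mt a X)) (h2 : Band 1 (mt b X)) :
    ∃ x0 x1 x2 r s : K, X = x0 • 1 + x1 • A + x2 • B + r • (A * B) + s • (B * A) := by
  obtain ⟨g, e, i, hi⟩ := h.dep ![X, 1, A, B, A * B, B * A]
    {(0, 0), (1, 0), (0, 1), (1, 1), (2, 1)} 1 (by decide) (fun i => by
      fin_cases i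
      exacts [h1, (map_one (mt a) ▸ band_one).mono zero_le_one, h.b0.mono zero_le_one, h.tB.band,
        map_mul (mt a) A B ▸ h.b0.mul h.tB.band, map_mul (mt a) B A ▸ h.tB.band.mul h.b0])
    (fun i => by
      fin_cases i
      exacts [h2, (map_one (mt b) ▸ band_one).mono zero_le_one, h.tA.band,
        h.symm.b0.mono zero_le_one, map_mul (mt b) A B ▸ h.tA.band.mul h.symm.b0,
        map_mul (mt b) B A ▸ h.symm.b0.mul h.tA.band])
    fun r s e => by
      simp only [Finset.mem_insert, Finset.mem_singleton, Prod.mk.injEq]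
      omega
  simp only [Fin.sum_univ_six, cons_val] at e
  have g0 : g 0 ≠ 0 := fun g0 => by
    rw [g0, zero_smul, zero_add] at e
    obtain ⟨e1, e2, e3, e4, e5⟩ := h.ind5 hn e
    fin_cases i <;> exact hi ‹_›
  refine ⟨-g 1 / g 0, -g 2 / g 0, -g 3 / g 0, -g 4 / g 0, -g 5 / g 0, ?_⟩
  refine smul_right_injective _ g0 ?_
  simp only [smul_add, smul_smul, mul_div_cancel₀ _ g0]
  linear_combination (norm := module) e

/-- A Leonard triple with its three eigenbases. -/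
structure LT (A B C : End K V) (a b c : Basis (Fin n) K V) (θ φ η : Fin n → K) : Prop where
  ab : LP A B a b θ φ
  bc : LP B C b c φ η
  ca : LP C A c a η θ

lemma LT.rot (h : LT A B C a b c θ φ η) : LT B C A b c a φ η θ := ⟨h.bc, h.ca, h.ab⟩

lemma LT.swap (h : LT A B C a b c θ φ η) : LT B A C b a c φ θ η :=
  ⟨h.ab.symm, h.ca.symm, h.bc.symm⟩

lemma LT.rev (h : LT A B C a b c θ φ η) :
    LT A B C (a.reindex Fin.revPerm) b c (fun i => θ i.rev) φ η :=
  ⟨h.ab.rev, h.bc, h.ca.symm.rev.symm⟩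

lemma IsLeonardTriple.exists_lt (h : IsLeonardTriple A B C) (hn : finrank K V = n) :
    ∃ (a b c : Basis (Fin n) K V) (θ φ η : Fin n → K), LT A B C a b c θ φ η := by
  obtain ⟨⟨n1, a, a1, a2, a3⟩, ⟨n2, b, b1, b2, b3⟩, n3, c, c1, c2, c3⟩ := h
  obtain rfl : n1 = n := by rw [← hn, finrank_eq_card_basis a, Fintype.card_fin]
  obtain rfl : n2 = n1 := by rw [← hn, finrank_eq_card_basis b, Fintype.card_fin]
  obtain rfl : n3 = n2 := by rw [← hn, finrank_eq_card_basis c, Fintype.card_fin]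
  exact ⟨a, b, c, _, _, _, ⟨a1.diagonal_diag.symm, b1.diagonal_diag.symm, a2, b2⟩,
    ⟨b1.diagonal_diag.symm, c1.diagonal_diag.symm, b3, c3⟩,
    ⟨c1.diagonal_diag.symm, a1.diagonal_diag.symm, c2, a3⟩⟩

lemma LT.isLeonardTriple (h : LT A B C a b c θ φ η) : IsLeonardTriple A B C :=
  ⟨⟨n, a, (mt_eq a A ▸ h.ab.dA) ▸ isDiag_diagonal θ, h.ab.tB, h.ca.tA⟩,
    ⟨n, b, (mt_eq b B ▸ h.ab.dB) ▸ isDiag_diagonal φ, h.ab.tA, h.bc.tB⟩,
    ⟨n, c, (mt_eq c C ▸ h.ca.dA) ▸ isDiag_diagonal η, h.ca.tB, h.bc.tA⟩⟩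

/-- The span of `I, A, B, C`. -/
abbrev Sp (A B C : End K V) : Submodule K (End K V) := Submodule.span K {LinearMap.id, A, B, C}

lemma mem_Sp : X ∈ Sp A B C ↔ ∃ x0 x1 x2 x3 : K, X = x0 • 1 + x1 • A + x2 • B + x3 • C := by
  simp only [Submodule.mem_span_insert, Submodule.mem_span_singleton]
  constructor
  · rintro ⟨x0, _, ⟨x1, _, ⟨x2, _, ⟨x3, rfl⟩, rfl⟩, rfl⟩, rfl⟩
    exact ⟨x0, x1, x2, x3, by simp only [add_assoc]; rfl⟩
  · rintro ⟨x0, x1, x2, x3, rfl⟩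
    exact ⟨x0, _, ⟨x1, _, ⟨x2, _, ⟨x3, rfl⟩, rfl⟩, rfl⟩, by simp only [add_assoc]; rfl⟩

lemma Sp_rot : Sp B C A = Sp A B C := by
  ext X
  simp only [mem_Sp]
  exact ⟨fun ⟨x0, x1, x2, x3, e⟩ => ⟨x0, x3, x1, x2, by rw [e]; abel⟩,
    fun ⟨x0, x1, x2, x3, e⟩ => ⟨x0, x2, x3, x1, by rw [e]; abel⟩⟩

/-- Linear independence of `I, A, B, C`. -/
def Ind (A B C : End K V) : Prop :=
  ∀ x0 x1 x2 x3 : K, x0 • 1 + x1 • A + x2 • B + x3 • C = 0 → x0 = 0 ∧ x1 = 0 ∧ x2 = 0 ∧ x3 = 0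

lemma ind_iff : LinearIndependent K ![LinearMap.id, A, B, C] ↔ Ind A B C := by
  rw [Fintype.linearIndependent_iff]
  simp only [Fin.sum_univ_four, cons_val]
  refine ⟨fun h x0 x1 x2 x3 e => ?_, fun h g e i => ?_⟩
  · have := h ![x0, x1, x2, x3] e
    exact ⟨this 0, this 1, this 2, this 3⟩
  · obtain ⟨e0, e1, e2, e3⟩ := h _ _ _ _ e
    fin_cases i <;> assumption

lemma Ind.rot (h : Ind A B C) : Ind B C A := fun x0 x1 x2 x3 e => by
  obtain ⟨e0, e1, e2, e3⟩ := h x0 x3 x1 x2 (by rw [← e]; abel)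
  exact ⟨e0, e2, e3, e1⟩

/-- One `q`-commutator in the span forces independence, and gives a formula for `C`. -/
lemma LP.of_mem (h : LP A B a b θ φ) (hn : 3 ≤ n) {q : K} (e : A * B - q • (B * A) ∈ Sp A B C) :
    ∃ x0 x1 x2 r : K, r ≠ 0 ∧
      C = x0 • 1 + x1 • A + x2 • B + r • (A * B) + (-(q * r)) • (B * A) := by
  obtain ⟨x0, x1, x2, x3, e⟩ := mem_Sp.1 e
  have x30 : x3 ≠ 0 := fun x30 => one_ne_zero (h.ind5 hn (x0 := -x0) (x1 := -x1) (x2 := -x2)
    (r := 1) (s := -q) (by rw [x30] at e; linear_combination (norm := module) e)).2.2.2.1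
  refine ⟨-x0 / x3, -x1 / x3, -x2 / x3, 1 / x3, one_div_ne_zero x30,
    smul_right_injective _ x30 ?_⟩
  have : x3 * -(q * (1 / x3)) = -q := by field_simp
  simp only [smul_add, smul_smul, mul_div_cancel₀ _ x30, this]
  linear_combination (norm := module) -e

lemma LP.ind_of_mem (h : LP A B a b θ φ) (hn : 3 ≤ n) {q : K}
    (e : A * B - q • (B * A) ∈ Sp A B C) : Ind A B C := fun y0 y1 y2 y3 e' => by
  obtain ⟨x0, x1, x2, r, r0, rfl⟩ := h.of_mem hn e
  obtain ⟨e0, e1, e2, e3, -⟩ := h.ind5 hn (x0 := y0 + y3 * x0) (x1 := y1 + y3 * x1)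
    (x2 := y2 + y3 * x2) (r := y3 * r) (s := y3 * -(q * r)) (by linear_combination (norm := module) e')
  obtain rfl : y3 = 0 := (mul_eq_zero.1 e3).resolve_right r0
  simpa using And.intro e0 (And.intro e1 e2)

lemma LP.uniq (h : LP A B a b θ φ) (hn : 3 ≤ n) {q q' : K} (e : A * B - q • (B * A) ∈ Sp A B C)
    (e' : A * B - q' • (B * A) ∈ Sp A B C) : q = q' := by
  obtain ⟨x0, x1, x2, r, r0, u⟩ := h.of_mem hn e
  obtain ⟨y0, y1, y2, s, -, v⟩ := h.of_mem hn e'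
  obtain ⟨-, -, -, e3, e4⟩ := h.ind5 hn (x0 := x0 - y0) (x1 := x1 - y1) (x2 := x2 - y2)
    (r := r - s) (s := -(q * r) + q' * s) (by linear_combination (norm := module) v - u)
  exact mul_right_cancel₀ r0 (by linear_combination -e4 - q' * e3)

/-- The conic through the pairs of adjacent eigenvalues. -/
lemma LT.conic (h : LT A B C a b c θ φ η) {x0 x1 x2 r s y0 y1 y2 r' s' : K}
    (e : C = x0 • 1 + x1 • A + x2 • B + r • (A * B) + s • (B * A))
    (e' : B = y0 • 1 + y1 • C + y2 • A + r' • (C * A) + s' • (A * C)) {i j : Fin n}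
    (u : Adj i j) : (x2 + r * θ i + s * θ j) * (y1 + s' * θ i + r' * θ j) = 1 := by
  have e1 := h.ab.off x0 x1 x2 r s u.ne
  have e2 := h.ca.symm.off y0 y2 y1 s' r' u.ne
  rw [← e] at e1
  rw [show y0 • 1 + y2 • A + y1 • C + s' • (A * C) + r' • (C * A) = B by rw [e']; abel, e1] at e2
  exact mul_left_cancel₀ (h.ab.tB.adj u) (by linear_combination -e2)

lemma LT.ratio (h : LT A B C a b c θ φ η) (hn : 3 ≤ n) {x0 x1 x2 r s y0 y1 y2 r' s' : K}
    (e : C = x0 • 1 + x1 • A + x2 • B + r • (A * B) + s • (B * A))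
    (e' : B = y0 • 1 + y1 • C + y2 • A + r' • (C * A) + s' • (A * C))
    (h1 : r ≠ 0 ∨ s ≠ 0) (h2 : r' ≠ 0 ∨ s' ≠ 0) : r * s' = s * r' ∧ r ≠ 0 ∧ s ≠ 0 := by
  have k1 := h.conic e e' (adj01 hn)
  have k2 := h.conic e e' (adj01 hn).symm
  have k3 := h.conic e e' (adj12 hn)
  have k4 := h.conic e e' (adj12 hn).symm
  have n01 := h.ab.ne (by omega) (by omega) (by omega : 0 ≠ 1)
  have n12 := h.ab.ne (by omega) (by omega) (by omega : 1 ≠ 2)
  have n02 := h.ab.ne (by omega) (by omega) (by omega : 0 ≠ 2)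
  generalize θ ⟨0, _⟩ = t0, θ ⟨1, _⟩ = t1, θ ⟨2, _⟩ = t2 at *
  have l1 : (r * s' - s * r') * (t0 + t1) + (x2 * (s' - r') + y1 * (r - s)) = 0 :=
    mul_left_cancel₀ n01 (by linear_combination k1 - k2)
  have l2 : (r * s' - s * r') * (t1 + t2) + (x2 * (s' - r') + y1 * (r - s)) = 0 :=
    mul_left_cancel₀ n12 (by linear_combination k3 - k4)
  have l3 : r * s' = s * r' := mul_left_cancel₀ n02 (by linear_combination l1 - l2)
  refine ⟨l3, fun r0 => ?_, fun s0 => ?_⟩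
  · have r0' : r' = 0 := mul_left_cancel₀ (h1.resolve_left (not_not.2 r0)) (by
      rw [← l3, r0, zero_mul, mul_zero])
    rw [r0, r0'] at k1 k4
    exact one_ne_zero (mul_left_cancel₀ (mul_ne_zero (h2.resolve_left (not_not.2 r0')) n02) (by
      linear_combination (y1 + s' * t0) * -k4 + (y1 + s' * t2) * k1 :
        s' * (t0 - t2) * 1 = s' * (t0 - t2) * 0))
  · have s0' : s' = 0 := mul_left_cancel₀ (h1.resolve_right (not_not.2 s0)) (by
      rw [l3, s0, zero_mul, mul_zero])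
    rw [s0, s0'] at k2 k3
    exact one_ne_zero (mul_left_cancel₀ (mul_ne_zero (h2.resolve_right (not_not.2 s0')) n02) (by
      linear_combination (y1 + r' * t0) * -k3 + (y1 + r' * t2) * k2 :
        r' * (t0 - t2) * 1 = r' * (t0 - t2) * 0))

lemma LT.rep (h : LT A B C a b c θ φ η) (hn : 3 ≤ n) (hi : Ind A B C) :
    ∃ x0 x1 x2 r s : K, C = x0 • 1 + x1 • A + x2 • B + r • (A * B) + s • (B * A) ∧
      (r ≠ 0 ∨ s ≠ 0) := by
  obtain ⟨x0, x1, x2, r, s, e⟩ := h.ab.five hn h.ca.tA.band h.bc.tB.band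
  refine ⟨x0, x1, x2, r, s, e, ?_⟩
  by_contra u
  push Not at u
  rw [u.1, u.2] at e
  simpa using (hi x0 x1 x2 (-1) (by linear_combination (norm := module) -e)).2.2.2

lemma mem_of_rep {x0 x1 x2 r s q : K}
    (e : C = x0 • 1 + x1 • A + x2 • B + r • (A * B) + s • (B * A)) (r0 : r ≠ 0)
    (hq : s = -(q * r)) : A * B - q • (B * A) ∈ Sp A B C := by
  refine (Submodule.smul_mem_iff _ r0).1 (mem_Sp.2 ⟨-x0, -x1, -x2, 1, ?_⟩)
  rw [hq] at e
  linear_combination (norm := module) -e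

lemma LT.qcomm (h : LT A B C a b c θ φ η) (hn : 3 ≤ n) (hi : Ind A B C) :
    ∃ q : K, q ≠ 0 ∧ QComm q A B C := by
  obtain ⟨x0, x1, x2, r, s, e1, h1⟩ := h.rep hn hi
  obtain ⟨y0, y1, y2, r', s', e2, h2⟩ := h.rot.rep hn hi.rot
  obtain ⟨z0, z1, z2, r'', s'', e3, h3⟩ := h.rot.rot.rep hn hi.rot.rot
  obtain ⟨k1, r0, s0⟩ := h.ratio hn e1 e3 h1 h3
  obtain ⟨k2, r0', -⟩ := h.rot.ratio hn e2 e1 h2 h1
  obtain ⟨-, r0'', -⟩ := h.rot.rot.ratio hn e3 e2 h3 h2
  refine ⟨-s / r, div_ne_zero (neg_ne_zero.2 s0) r0, mem_of_rep e1 r0 (by field_simp), ?_, ?_⟩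
  · exact Sp_rot.le (mem_of_rep e2 r0' (by field_simp; linear_combination -k2))
  · exact Sp_rot.ge (mem_of_rep e3 r0'' (by field_simp; linear_combination k1))

lemma anti (hn : finrank K V ≤ 2) [FiniteDimensional K V] (A B : End K V) :
    ∃ x0 x1 x2 : K, A * B + B * A = x0 • 1 + x1 • A + x2 • B := by
  obtain ⟨m, hm⟩ : ∃ m, finrank K V = m := ⟨_, rfl⟩
  let a := finBasisOfFinrankEq K V hm
  rw [hm] at hn
  refine ⟨(mt a A * mt a B).trace - (mt a A).trace * (mt a B).trace, (mt a B).trace,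
    (mt a A).trace, (mt a).injective ?_⟩
  simp only [map_add, map_mul, map_smul, map_one]
  generalize mt a A = M, mt a B = N
  ext i j
  interval_cases m
  · exact i.elim0
  · fin_cases i
    fin_cases j
    simp [mul_apply, trace]
    ring
  · fin_cases i <;> fin_cases j <;> simp [mul_apply, trace, Fin.sum_univ_two] <;> ring

lemma qcomm_small (hn : finrank K V ≤ 2) [FiniteDimensional K V] (A B C : End K V) :
    QComm (-1 : K) A B C := by
  have k : ∀ A B C : End K V, A * B - (-1 : K) • (B * A) ∈ Sp A B C := fun A B C => by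
    obtain ⟨x0, x1, x2, e⟩ := anti hn A B
    exact mem_Sp.2 ⟨x0, x1, x2, 0, by linear_combination (norm := module) e⟩
  exact ⟨k A B C, Sp_rot.le (k B C A), Sp_rot.ge (k C A B)⟩

/-- The parameter `q` and the eigenvalues. -/
lemma LT.spec (h : LT A B C a b c θ φ η) (hn : 3 ≤ n) {q : K} (hq : QComm q A B C) :
    (∀ hn : 4 ≤ n, q * (θ ⟨0, by omega⟩ - θ ⟨3, by omega⟩) =
      (q ^ 2 + q + 1) * (θ ⟨1, by omega⟩ - θ ⟨2, by omega⟩)) ∧
    (q = 1 → (2 : K) ≠ 0 → θ ⟨0, by omega⟩ + θ ⟨2, by omega⟩ = 2 * θ ⟨1, by omega⟩) := by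
  obtain ⟨x0, x1, x2, r, r0, e⟩ := h.ab.of_mem hn hq.1
  obtain ⟨y0, y1, y2, s, s0, e'⟩ := h.ca.of_mem hn (Sp_rot.le hq.2.2 : _ ∈ Sp C A B)
  have k1 := h.conic e e' (adj01 hn)
  have k2 := h.conic e e' (adj01 hn).symm
  have k3 := h.conic e e' (adj12 hn)
  have k4 := h.conic e e' (adj12 hn).symm
  have n01 := h.ab.ne (by omega) (by omega) (by omega : 0 ≠ 1)
  have n02 := h.ab.ne (by omega) (by omega) (by omega : 0 ≠ 2)
  refine ⟨fun hn => ?_, fun q1 h2 => ?_⟩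
  · have k5 := h.conic e e' (adj23 hn).symm
    have n13 := h.ab.ne (by omega) (by omega) (by omega : 1 ≠ 3)
    generalize θ ⟨0, _⟩ = t0, θ ⟨1, _⟩ = t1, θ ⟨2, _⟩ = t2, θ ⟨3, _⟩ = t3 at *
    have l1 : -(r * s * q) * (t0 + t2) + r * s * (1 + q ^ 2) * t1 + (r * y1 - q * s * x2) = 0 :=
      mul_left_cancel₀ n02 (by linear_combination k1 - k4)
    have l2 : -(r * s * q) * (t1 + t3) + r * s * (1 + q ^ 2) * t2 + (r * y1 - q * s * x2) = 0 :=
      mul_left_cancel₀ n13 (by linear_combination k3 - k5)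
    exact mul_left_cancel₀ (mul_ne_zero r0 s0) (by linear_combination l2 - l1)
  · subst q1
    generalize θ ⟨0, _⟩ = t0, θ ⟨1, _⟩ = t1, θ ⟨2, _⟩ = t2 at *
    have l1 : r * y1 - s * x2 = 0 :=
      mul_left_cancel₀ (mul_ne_zero h2 n01) (by linear_combination k1 - k2)
    exact mul_left_cancel₀ (mul_ne_zero (mul_ne_zero r0 s0) n02) (by
      linear_combination k4 - k1 + (t0 - t2) * l1)

end Pool.Agent.P.MP_4722b0_al.X
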